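import Pool.Agent.Y416.ThreeGraphB

set_option autoImplicit false
set_option linter.unusedSectionVars false

/-!
# Extension of partial automorphisms of three-graphs
-/

namespace Pool.Agent.Y416.ThreeGraph

open Finset

variable {X : Type} [Fintype X] [DecidableEq X]

/-- extension of an injective map on a finset to a permutation -/
theorem exists_perm (S : Finset X) (p : X → X) (hp : Set.InjOn p (S : Set X)) :
    ∃ π : X ≃ X, ∀ x ∈ S, π x = p x := by
  obtain ⟨g, hg⟩ := Finset.exists_equiv_extend_of_card_eq (α := X) (t := (Finset.univ : Finset X))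
    (by simp) (s := S) (f := p) (Finset.subset_univ _) hp
  refine ⟨g.trans (Equiv.subtypeUnivEquiv (fun x => Finset.mem_univ x)), ?_⟩
  intro x hx
  exact hg x hx

/-- the vertices of the extension -/
abbrev BV (X : Type) := Bool × X × (X → ZMod 2)

/-- the function of the extension -/
def FB (a b : BV X) : ZMod 2 := a.2.2 b.2.1 + b.2.2 a.2.1

theorem FB_comm (a b : BV X) : FB a b = FB b a := add_comm _ _

/-- the valuation of the vertex `x` -/
def val (sd : X → Bool) (F : X → X → ZMod 2) (x : X) : X → ZMod 2 :=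
  fun y => if sd x = false then F x y else 0

/-- the embedding -/
def emb (sd : X → Bool) (F : X → X → ZMod 2) : X ↪ BV X :=
  ⟨fun x => (sd x, x, val sd F x), fun x y h => by simp only [Prod.mk.injEq] at h; exact h.2.1⟩

theorem FB_emb (sd : X → Bool) (F : X → X → ZMod 2) (hF : ∀ x y, F x y = F y x) (x y : X)
    (h : sd x ≠ sd y) : val sd F x y + val sd F y x = F x y := by
  unfold val
  rcases Bool.eq_false_or_eq_true (sd x) with sx | sx
  · have sy : sd y = false := by
      rcases Bool.eq_false_or_eq_true (sd y) with h' | h'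
      · exact absurd (sx.trans h'.symm) h
      · exact h'
    rw [if_neg (by rw [sx]; decide), if_pos sy, zero_add, hF]
  · have sy : sd y = true := by
      rcases Bool.eq_false_or_eq_true (sd y) with h' | h'
      · exact h'
      · exact absurd (sx.trans h'.symm) h
    rw [if_pos sx, if_neg (by rw [sy]; decide), add_zero]

/-- the permutation of the extension given by permutations of the sides and corrections -/
def sig (δ : Bool) (π : Bool → (X ≃ X)) (C : Bool → X → X → ZMod 2) : BV X ≃ BV X where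
  toFun a := (xor a.1 δ, π a.1 a.2.1, fun j => a.2.2 ((π (!a.1)).symm j) + C a.1 a.2.1 ((π (!a.1)).symm j))
  invFun b := (xor b.1 δ, (π (xor b.1 δ)).symm b.2.1,
    fun j => b.2.2 (π (!(xor b.1 δ)) j) + C (xor b.1 δ) ((π (xor b.1 δ)).symm b.2.1) j)
  left_inv := by
    rintro ⟨s, i, χ⟩
    have h1 : xor (xor s δ) δ = s := by cases s <;> cases δ <;> rfl
    simp only [h1, Equiv.symm_apply_apply, Prod.mk.injEq, true_and]
    funext j
    have := two_mul_z2 (C s i j)
    linear_combination this
  right_inv := by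
    rintro ⟨s, i, χ⟩
    have h1 : xor (xor s δ) δ = s := by cases s <;> cases δ <;> rfl
    simp only [h1, Equiv.apply_symm_apply, Prod.mk.injEq, true_and]
    funext j
    have := two_mul_z2 (C (xor s δ) ((π (xor s δ)).symm i) ((π (!(xor s δ))).symm j))
    linear_combination this

/-- the correction terms -/
def corr (sd : X → Bool) (F : X → X → ZMod 2) (S : Finset X) (p : X → X) (π : Bool → (X ≃ X))
    (G' : Bool → X → ZMod 2) (s : Bool) (i j : X) : ZMod 2 :=
  if i ∈ S ∧ sd i = s then val sd F i j + val sd F (p i) (π (!s) j)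
  else if j ∈ S ∧ sd j = !s then
    G' s i + G' (!s) j + (val sd F j i + val sd F (p j) (π s i))
  else 0

theorem corr_add (sd : X → Bool) (F : X → X → ZMod 2) (hF : ∀ x y, F x y = F y x)
    (S : Finset X) (p : X → X) (δ : Bool)
    (hδ : ∀ x ∈ S, sd (p x) = xor (sd x) δ) (π : Bool → (X ≃ X))
    (hπ : ∀ x ∈ S, π (sd x) x = p x) (G : X → ZMod 2)
    (hG : ∀ x ∈ S, ∀ y ∈ S, sd x ≠ sd y → F (p x) (p y) = F x y + G x + G y)
    (G' : Bool → X → ZMod 2) (hG' : ∀ s x, G' s x = if x ∈ S ∧ sd x = s then G x else 0)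
    (s : Bool) (i j : X) :
    corr sd F S p π G' s i j + corr sd F S p π G' (!s) j i = G' s i + G' (!s) j := by
  unfold corr
  by_cases hi : i ∈ S ∧ sd i = s
  · by_cases hj : j ∈ S ∧ sd j = !s
    · rw [if_pos hi, if_pos hj, hG', hG', if_pos hi, if_pos hj, Bool.not_not]
      have h1 : π (!s) j = p j := by rw [← hj.2]; exact hπ j hj.1
      have h2 : π s i = p i := by rw [← hi.2]; exact hπ i hi.1
      rw [h1, h2]
      have hne : sd i ≠ sd j := by rw [hi.2, hj.2]; cases s <;> decide
      have hne' : sd (p i) ≠ sd (p j) := by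
        rw [hδ i hi.1, hδ j hj.1, hi.2, hj.2]; cases s <;> cases δ <;> decide
      have e1 := FB_emb sd F hF i j hne
      have e2 := FB_emb sd F hF (p i) (p j) hne'
      have e3 := hG i hi.1 j hj.1 hne
      have t := two_mul_z2 (F i j)
      linear_combination e1 + e2 + e3 + t
    · rw [if_pos hi, if_neg hj, Bool.not_not, if_pos hi]
      have t := two_mul_z2 (val sd F i j)
      have t' := two_mul_z2 (val sd F (p i) (π (!s) j))
      linear_combination t + t'
  · by_cases hj : j ∈ S ∧ sd j = !s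
    · rw [if_neg hi, if_pos hj, if_pos hj, Bool.not_not]
      have t := two_mul_z2 (val sd F j i)
      have t' := two_mul_z2 (val sd F (p j) (π s i))
      linear_combination t + t'
    · rw [if_neg hi, if_neg hj, if_neg hj, Bool.not_not, if_neg hi, hG', hG', if_neg hi, if_neg hj]

/-- the extension property -/
theorem main (sd : X → Bool) (F : X → X → ZMod 2) (hF : ∀ x y, F x y = F y x) (S : Finset X)
    (p : X → X) (hp : Set.InjOn p (S : Set X))
    (hsd : ∀ x ∈ S, ∀ y ∈ S, sd x = sd y ↔ sd (p x) = sd (p y))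
    (hH : ∀ e ⊆ S, e ∈ Hyp sd F ↔ e.image p ∈ Hyp sd F) :
    ∃ (σ : BV X ≃ BV X) (δ : Bool) (G : BV X → ZMod 2), (∀ a, (σ a).1 = xor a.1 δ) ∧
      (∀ a b : BV X, a.1 ≠ b.1 → FB (σ a) (σ b) = FB a b + G a + G b) ∧
      ∀ x ∈ S, σ (emb sd F x) = emb sd F (p x) := by
  have hδ : ∃ δ : Bool, ∀ x ∈ S, sd (p x) = xor (sd x) δ := by
    rcases S.eq_empty_or_nonempty with h | ⟨x0, hx0⟩
    · exact ⟨false, by rw [h]; simp⟩
    · refine ⟨xor (sd x0) (sd (p x0)), ?_⟩
      intro x hx
      have h := hsd x hx x0 hx0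
      revert h
      cases sd x <;> cases sd x0 <;> cases sd (p x) <;> cases sd (p x0) <;> decide
  obtain ⟨δ, hδ⟩ := hδ
  obtain ⟨G, hG⟩ := exists_switch sd F hF S p hp δ hδ hH
  have hπ : ∀ s : Bool, ∃ π : X ≃ X, ∀ x ∈ S.filter (fun x => sd x = s), π x = p x := by
    intro s
    apply exists_perm
    intro x hx y hy hxy
    exact hp (Finset.mem_filter.1 (Finset.mem_coe.1 hx)).1 (Finset.mem_filter.1 (Finset.mem_coe.1 hy)).1 hxy
  choose π hπ using hπ
  have hπ' : ∀ x ∈ S, π (sd x) x = p x := fun x hx => hπ (sd x) x (Finset.mem_filter.2 ⟨hx, rfl⟩)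
  let G' : Bool → X → ZMod 2 := fun s x => if x ∈ S ∧ sd x = s then G x else 0
  have hG' : ∀ s x, G' s x = if x ∈ S ∧ sd x = s then G x else 0 := fun _ _ => rfl
  refine ⟨sig δ π (corr sd F S p π G'), δ, fun a => G' a.1 a.2.1, fun a => rfl, ?_, ?_⟩
  · rintro ⟨s, i, χ⟩ ⟨t, j, ψ⟩ hst
    have ht : t = !s := by
      revert hst; cases s <;> cases t <;> simp
    subst ht
    have h1 : (π (!!s)) = π s := by rw [Bool.not_not]
    simp only [sig, FB, Equiv.coe_fn_mk, h1, Equiv.symm_apply_apply]
    have h := corr_add sd F hF S p δ hδ π hπ' G hG G' hG' s i j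
    linear_combination h
  · intro x hx
    simp only [sig, emb, Equiv.coe_fn_mk, Function.Embedding.coeFn_mk, Prod.mk.injEq]
    refine ⟨(hδ x hx).symm, hπ' x hx, ?_⟩
    funext j
    unfold corr
    rw [if_pos ⟨hx, rfl⟩, Equiv.apply_symm_apply]
    have t := two_mul_z2 (val sd F x ((π (!(sd x))).symm j))
    linear_combination t

/-- the result for a finite type of vertices -/
theorem extension (sd : X → Bool) (F : X → X → ZMod 2) (hF : ∀ x y, F x y = F y x) :
    (∀ e : Finset X, e ∈ Hyp sd F ↔ e.map (emb sd F) ∈ Hyp (fun a : BV X => a.1) FB) ∧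
    ∀ (S : Finset X) (p : X → X), Set.InjOn p (S : Set X) →
      (∀ x ∈ S, ∀ y ∈ S, sd x = sd y ↔ sd (p x) = sd (p y)) →
      (∀ e ⊆ S, e ∈ Hyp sd F ↔ e.image p ∈ Hyp sd F) →
      ∃ σ : BV X ≃ BV X, (∀ a b, a.1 = b.1 ↔ (σ a).1 = (σ b).1) ∧
        (∀ e : Finset (BV X), e ∈ Hyp (fun a : BV X => a.1) FB ↔
          e.map σ.toEmbedding ∈ Hyp (fun a : BV X => a.1) FB) ∧
        ∀ x ∈ S, σ (emb sd F x) = emb sd F (p x) := by
  constructor
  · intro e
    refine map_mem sd F hF (fun a : BV X => a.1) FB FB_comm false (fun _ => 0) (emb sd F) ?_ ?_ e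
    · intro x
      show sd x = xor (sd x) false
      rw [Bool.xor_false]
    · intro x y hxy
      have h := FB_emb sd F hF x y hxy
      show val sd F x y + val sd F y x = _
      rw [h, add_zero, add_zero]
  · intro S p hp hsd hH
    obtain ⟨σ, δ, G, h1, h2, h3⟩ := main sd F hF S p hp hsd hH
    refine ⟨σ, ?_, ?_, h3⟩
    · intro a b
      rw [h1, h1]
      cases a.1 <;> cases b.1 <;> cases δ <;> decide
    · intro e
      exact map_mem (fun a : BV X => a.1) FB FB_comm (fun a : BV X => a.1) FB FB_comm δ G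
        σ.toEmbedding h1 h2 e

end Pool.Agent.Y416.ThreeGraph
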