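import Mathlib
import Pool.Agent.TH314.ETH.Res

/-!
# Bounded representation functions and the number of different sections modulo `q`

The section of `A` in the class `u` modulo `q` is `{n | q n + u ∈ A}`.  If `A` is thick of order `h` and
its representation function of order `h` is bounded, then the number `kern A q` of different sections
satisfies `(kern A q) ^ h / q → ∞`.
-/

set_option autoImplicit false

open Finset Filter Topology

namespace Pool.Agent.Y416.KG

open Pool.Agent.Helper112 Pool.Agent.TH314.ET Pool.Agent.TH314.ETH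

/-- the section of `A` in the residue class `u` modulo `q` -/
def sec (A : Set ℕ) (q u : ℕ) : Set ℕ := {n | q * n + u ∈ A}

/-- the number of different sections modulo `q` -/
noncomputable def kern (A : Set ℕ) (q : ℕ) : ℕ := {S : Set ℕ | ∃ u < q, S = sec A q u}.ncard

/-! ### Fourier part -/

theorem part_ind (F : Finset ℕ) (q c : ℕ) :
    part (ind F) q 0 c = ((F.filter (fun a => a % q = c)).card : ℂ) := by
  classical
  unfold part
  rw [tsum_eq_sum (s := F)]
  · rw [Finset.card_filter]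
    push_cast
    refine Finset.sum_congr rfl fun a ha => ?_
    split_ifs with h
    · rw [mul_zero, ls_ee_zero, mul_one]
      simp [ind, ha]
    · rfl
  · intro a ha
    have : ind F a = 0 := by simp [ind, ha]
    rw [this, zero_mul, ite_self]

theorem sum_sq_classes (F : Finset ℕ) {q : ℕ} (hq : 0 < q) :
    ∑ a ∈ range q, ‖Sf (ind F) ((a : ℝ) / q)‖ ^ 2 =
      q * ∑ c ∈ range q, ((F.filter (fun a => a % q = c)).card : ℝ) ^ 2 := by
  have h1 : ∀ a ∈ range q, ‖Sf (ind F) ((a : ℝ) / q)‖ ^ 2 =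
      ‖∑ c ∈ range q, part (ind F) q 0 c * ee (a * ((c : ℝ) / q))‖ ^ 2 := by
    intro a _
    have := Sf_expand (ind_summable F) q hq 0 a
    rw [add_zero] at this
    rw [this]
  rw [Finset.sum_congr rfl h1, parseval_range]
  congr 1
  refine Finset.sum_congr rfl fun c _ => ?_
  rw [part_ind, Complex.norm_natCast]

theorem mass_step {h : ℕ} (hh : 1 ≤ h) (R : Finset ℝ) {q : ℕ} (hq : 0 < q)
    (C : Finset ℕ) (hC0 : 0 < C.card) (F : Finset ℕ)
    (hlarge : 8 * (C.card : ℝ) * R.card ≤ q)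
    (hF : F.card ≤ 2 * (F.filter (fun a => a % q ∈ C)).card) :
    q * (F.card : ℝ) ^ (2 * h) / (8 * C.card) ^ h ≤
      ∑ x ∈ ((range q).image (fun a : ℕ => (a : ℝ) / q)) \ R, ‖Sf (ind F) x‖ ^ (2 * h) := by
  classical
  set P := (range q).image (fun a : ℕ => (a : ℝ) / q) with hP
  have hq' : (0 : ℝ) < q := by exact_mod_cast hq
  have hCr : (0 : ℝ) < C.card := by exact_mod_cast hC0
  have hinj : Set.InjOn (fun a : ℕ => (a : ℝ) / q) (range q : Finset ℕ) := by
    intro a _ b _ hab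
    have : (a : ℝ) = b := by
      have h := hab
      simp only at h
      field_simp at h
      exact h
    exact_mod_cast this
  have hPc : (P.card : ℝ) ≤ q := by
    have : P.card ≤ (range q).card := Finset.card_image_le
    rw [card_range] at this
    exact_mod_cast this
  set f : ℝ := (F.card : ℝ) with hf
  have hf0 : 0 ≤ f := Nat.cast_nonneg _
  set ν : ℝ := (C.card : ℝ) with hν
  -- the mass of the classes in `C`
  have hcl : ((F.filter (fun a => a % q ∈ C)).card : ℝ) =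
      ∑ c ∈ (range q).filter (· ∈ C), ((F.filter (fun a => a % q = c)).card : ℝ) := by
    have h1 : (F.filter (fun a => a % q ∈ C)).card =
        ∑ c ∈ (range q).filter (· ∈ C), ((F.filter (fun a => a % q ∈ C)).filter
          (fun a => a % q = c)).card := by
      apply Finset.card_eq_sum_card_fiberwise
      intro a ha
      have ha' := (Finset.mem_filter.1 (Finset.mem_coe.1 ha)).2
      exact Finset.mem_coe.2 (Finset.mem_filter.2 ⟨mem_range.2 (Nat.mod_lt a hq), ha'⟩)
    rw [h1]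
    push_cast
    refine Finset.sum_congr rfl fun c hc => ?_
    congr 2
    ext a
    simp only [Finset.mem_filter]
    constructor
    · rintro ⟨⟨h2, _⟩, h3⟩
      exact ⟨h2, h3⟩
    · rintro ⟨h2, h3⟩
      refine ⟨⟨h2, ?_⟩, h3⟩
      rw [h3]
      exact (Finset.mem_filter.1 hc).2
  have h1 : f ^ 2 / 4 ≤ ν * ∑ c ∈ range q, ((F.filter (fun a => a % q = c)).card : ℝ) ^ 2 := by
    have h2 : f / 2 ≤ ((F.filter (fun a => a % q ∈ C)).card : ℝ) := by
      have : f ≤ 2 * ((F.filter (fun a => a % q ∈ C)).card : ℝ) := by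
        rw [hf]
        exact_mod_cast hF
      linarith
    have h3 : (f / 2) ^ 2 ≤ ((F.filter (fun a => a % q ∈ C)).card : ℝ) ^ 2 :=
      pow_le_pow_left₀ (by positivity) h2 2
    have h4 : ((F.filter (fun a => a % q ∈ C)).card : ℝ) ^ 2 ≤
        (((range q).filter (· ∈ C)).card : ℝ) *
        ∑ c ∈ (range q).filter (· ∈ C), ((F.filter (fun a => a % q = c)).card : ℝ) ^ 2 := by
      rw [hcl]
      exact sq_sum_le_card_mul_sum_sq
    have h5 : (((range q).filter (· ∈ C)).card : ℝ) ≤ ν := by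
      have : ((range q).filter (· ∈ C)).card ≤ C.card := by
        apply Finset.card_le_card
        intro c hc
        exact (Finset.mem_filter.1 hc).2
      rw [hν]
      exact_mod_cast this
    have h6 : ∑ c ∈ (range q).filter (· ∈ C), ((F.filter (fun a => a % q = c)).card : ℝ) ^ 2 ≤
        ∑ c ∈ range q, ((F.filter (fun a => a % q = c)).card : ℝ) ^ 2 :=
      Finset.sum_le_sum_of_subset_of_nonneg (Finset.filter_subset _ _) fun _ _ _ => by positivity
    have h7 : (0 : ℝ) ≤ ∑ c ∈ (range q).filter (· ∈ C),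
        ((F.filter (fun a => a % q = c)).card : ℝ) ^ 2 :=
      Finset.sum_nonneg fun _ _ => by positivity
    calc f ^ 2 / 4 = (f / 2) ^ 2 := by ring
      _ ≤ _ := h3
      _ ≤ _ := h4
      _ ≤ ν * ∑ c ∈ range q, ((F.filter (fun a => a % q = c)).card : ℝ) ^ 2 :=
          mul_le_mul h5 h6 h7 hCr.le
  have h2 : ∑ x ∈ P, ‖Sf (ind F) x‖ ^ 2 =
      q * ∑ c ∈ range q, ((F.filter (fun a => a % q = c)).card : ℝ) ^ 2 := by
    rw [← sum_sq_classes F hq, hP, Finset.sum_image hinj]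
  have h3 : q / (4 * ν) * f ^ 2 ≤ ∑ x ∈ P, ‖Sf (ind F) x‖ ^ 2 := by
    rw [h2, div_mul_eq_mul_div, div_le_iff₀ (by positivity)]
    have := mul_le_mul_of_nonneg_left h1 hq'.le
    nlinarith
  have h4 : ∑ x ∈ P ∩ R, ‖Sf (ind F) x‖ ^ 2 ≤ R.card * f ^ 2 := by
    calc ∑ x ∈ P ∩ R, ‖Sf (ind F) x‖ ^ 2 ≤ ∑ x ∈ P ∩ R, f ^ 2 :=
          Finset.sum_le_sum fun x _ => pow_le_pow_left₀ (norm_nonneg _) (norm_Sf_ind_le F x) 2
      _ = ((P ∩ R).card : ℝ) * f ^ 2 := by rw [Finset.sum_const, nsmul_eq_mul]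
      _ ≤ _ := by
          have : ((P ∩ R).card : ℝ) ≤ R.card := by
            exact_mod_cast Finset.card_le_card Finset.inter_subset_right
          exact mul_le_mul_of_nonneg_right this (by positivity)
  have h5 : ∑ x ∈ P, ‖Sf (ind F) x‖ ^ 2 =
      ∑ x ∈ P ∩ R, ‖Sf (ind F) x‖ ^ 2 + ∑ x ∈ P \ R, ‖Sf (ind F) x‖ ^ 2 :=
    (Finset.sum_inter_add_sum_sdiff P R _).symm
  have h6 : q / (8 * ν) * f ^ 2 ≤ ∑ x ∈ P \ R, ‖Sf (ind F) x‖ ^ 2 := by
    have h7 : (R.card : ℝ) ≤ q / (8 * ν) := by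
      rw [le_div_iff₀ (by positivity)]
      linarith
    have h8 : (q : ℝ) / (4 * ν) = q / (8 * ν) + q / (8 * ν) := by
      field_simp
      norm_num
    have h9 : (R.card : ℝ) * f ^ 2 ≤ q / (8 * ν) * f ^ 2 :=
      mul_le_mul_of_nonneg_right h7 (by positivity)
    rw [h8, add_mul] at h3
    linarith
  -- the power mean inequality
  obtain ⟨k, rfl⟩ : ∃ k, h = k + 1 := ⟨h - 1, by omega⟩
  rcases (P \ R).eq_empty_or_nonempty with hemp | hne
  · rw [hemp, Finset.sum_empty] at h6 ⊢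
    have h7 : f = 0 := by
      by_contra hne
      have hfp : 0 < f := lt_of_le_of_ne hf0 (Ne.symm hne)
      have : 0 < q / (8 * ν) * f ^ 2 := by positivity
      linarith
    rw [h7, zero_pow (by omega), mul_zero, zero_div]
  · have h7 := pow_sum_div_card_le_sum_pow (s := P \ R) (f := fun x : ℝ => ‖Sf (ind F) x‖ ^ 2)
      (fun x _ => by positivity) k
    have hcard : (0 : ℝ) < ((P \ R).card : ℝ) := by exact_mod_cast Finset.card_pos.2 hne
    have hcq : ((P \ R).card : ℝ) ≤ q := by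
      have : ((P \ R).card : ℝ) ≤ P.card := by
        exact_mod_cast Finset.card_le_card Finset.sdiff_subset
      linarith
    have h8 : ∑ x ∈ P \ R, (‖Sf (ind F) x‖ ^ 2) ^ (k + 1) =
        ∑ x ∈ P \ R, ‖Sf (ind F) x‖ ^ (2 * (k + 1)) :=
      Finset.sum_congr rfl fun x _ => by rw [← pow_mul]
    rw [h8] at h7
    refine le_trans ?_ h7
    rw [le_div_iff₀ (by positivity)]
    have h9 : (q / (8 * ν) * f ^ 2) ^ (k + 1) ≤ (∑ x ∈ P \ R, ‖Sf (ind F) x‖ ^ 2) ^ (k + 1) :=
      pow_le_pow_left₀ (by positivity) h6 _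
    refine le_trans ?_ h9
    calc q * f ^ (2 * (k + 1)) / (8 * ν) ^ (k + 1) * ((P \ R).card : ℝ) ^ k
        ≤ q * f ^ (2 * (k + 1)) / (8 * ν) ^ (k + 1) * (q : ℝ) ^ k := by
          apply mul_le_mul_of_nonneg_left _ (by positivity)
          exact pow_le_pow_left₀ hcard.le hcq k
      _ = (q / (8 * ν) * f ^ 2) ^ (k + 1) := by
          have e1 : (q / (8 * ν) * f ^ 2) ^ (k + 1) =
              (q : ℝ) ^ (k + 1) / (8 * ν) ^ (k + 1) * f ^ (2 * (k + 1)) := by
            rw [mul_pow (q / (8 * ν)) (f ^ 2), div_pow (q : ℝ) (8 * ν), ← pow_mul f 2 (k + 1)]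
          rw [e1, pow_succ (q : ℝ) k]
          ring

/-- infinitely many moduli with most of the mass on few classes: the moments are large -/
theorem mass_moment (A : Set ℕ) {h : ℕ} (hh : 2 ≤ h) (T : ℝ) (hT : 0 < T) (Pr : ℕ → Prop)
    (hthin : ∀ Q : ℕ, ∃ q, Q ≤ q ∧ ∃ C : Finset ℕ, 0 < C.card ∧ (C.card : ℝ) ^ h ≤ T * q ∧
      ∀ᶠ N in atTop, Pr N →
        (seg A N).card ≤ 2 * ((seg A N).filter (fun a => a % q ∈ C)).card) (m : ℕ) :
    ∃ R : Finset ℝ, (∀ x ∈ R, 0 ≤ x ∧ x < 1) ∧ ∀ᶠ N in atTop, Pr N →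
      m * (((seg A N).card : ℝ) ^ (2 * h) / (8 ^ h * T)) ≤
        ∑ x ∈ R, ‖Sf (ind (seg A N)) x‖ ^ (2 * h) := by
  classical
  induction m with
  | zero =>
    refine ⟨∅, by simp, Eventually.of_forall fun F _ => by simp⟩
  | succ m ih =>
    obtain ⟨R, hR, hRF⟩ := ih
    obtain ⟨Q, hQ⟩ := exists_nat_gt ((8 * (R.card : ℝ)) ^ h * T)
    obtain ⟨q, hqQ, C, hpos, hq, hmass⟩ := hthin (Q + 1)
    have hq0 : 0 < q := by omega
    have hq' : (0 : ℝ) < q := by exact_mod_cast hq0
    have hq1 : (1 : ℝ) ≤ q := by exact_mod_cast hq0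
    have hlarge : 8 * (C.card : ℝ) * R.card ≤ q := by
      have h1 : (8 * (C.card : ℝ) * R.card) ^ h ≤ (q : ℝ) ^ h := by
        calc (8 * (C.card : ℝ) * R.card) ^ h = (8 * (R.card : ℝ)) ^ h * (C.card : ℝ) ^ h := by
              rw [← mul_pow]
              congr 1
              ring
          _ ≤ (8 * (R.card : ℝ)) ^ h * (T * q) := mul_le_mul_of_nonneg_left hq (by positivity)
          _ = ((8 * (R.card : ℝ)) ^ h * T) * q := by ring
          _ ≤ q * q := by
              apply mul_le_mul_of_nonneg_right _ hq'.le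
              have : (Q : ℝ) ≤ q := by exact_mod_cast (by omega : Q ≤ q)
              linarith
          _ = (q : ℝ) ^ 2 := by ring
          _ ≤ (q : ℝ) ^ h := pow_le_pow_right₀ hq1 hh
      exact le_of_pow_le_pow_left₀ (by omega) hq'.le h1
    refine ⟨R ∪ (((range q).image (fun a : ℕ => (a : ℝ) / q)) \ R), ?_, ?_⟩
    · intro x hx
      rcases Finset.mem_union.1 hx with h | h
      · exact hR x h
      · obtain ⟨a, ha, rfl⟩ := Finset.mem_image.1 (Finset.mem_sdiff.1 h).1
        have ha' : (a : ℝ) < q := by exact_mod_cast mem_range.1 ha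
        exact ⟨by positivity, by rw [div_lt_one hq']; exact ha'⟩
    · filter_upwards [hRF, hmass] with N h2 h1 hN
      have h2 := h2 hN
      have h1 := mass_step (by omega : 1 ≤ h) R hq0 C hpos (seg A N) hlarge (h1 hN)
      rw [Finset.sum_union Finset.disjoint_sdiff]
      have h3 : ((seg A N).card : ℝ) ^ (2 * h) / (8 ^ h * T) ≤
          q * ((seg A N).card : ℝ) ^ (2 * h) / (8 * (C.card : ℝ)) ^ h := by
        have hrp : (0 : ℝ) < C.card := by exact_mod_cast hpos
        rw [div_le_div_iff₀ (by positivity) (by positivity), mul_pow]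
        calc ((seg A N).card : ℝ) ^ (2 * h) * (8 ^ h * (C.card : ℝ) ^ h)
            ≤ ((seg A N).card : ℝ) ^ (2 * h) * (8 ^ h * (T * q)) := by
              apply mul_le_mul_of_nonneg_left _ (by positivity)
              exact mul_le_mul_of_nonneg_left hq (by positivity)
          _ = _ := by ring
      push_cast
      linarith

/-- if `A` is thick of order `h` and the representation function is bounded in mean square, then few
classes modulo a large `q` cannot carry half of the mass -/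
theorem no_mass (A : Set ℕ) {h : ℕ} (hh : 2 ≤ h) (c : ℝ) (hc : 0 < c)
    (hfreq : ∃ᶠ N : ℕ in atTop, c * N ≤ ((A ∩ Set.Icc 1 N).ncard : ℝ) ^ h) (hr : MeanSq A h)
    (T : ℝ) (hT0 : 0 < T)
    (hthin : ∀ Q : ℕ, ∃ q, Q ≤ q ∧ ∃ C : Finset ℕ, 0 < C.card ∧ (C.card : ℝ) ^ h ≤ T * q ∧
      ∀ᶠ N : ℕ in atTop, c * N ≤ ((A ∩ Set.Icc 1 N).ncard : ℝ) ^ h →
        (seg A N).card ≤ 2 * ((seg A N).filter (fun a => a % q ∈ C)).card) : False := by
  classical
  obtain ⟨B, hB1, N₁, hsum⟩ := meanSq_bound (by omega : 1 ≤ h) hr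
  obtain ⟨m, hm⟩ := exists_nat_gt (6 * (h + 1) * B * (8 ^ h * T) / c ^ 2)
  obtain ⟨R, hR, hRF⟩ := mass_moment A hh T hT0 _ hthin m
  obtain ⟨D, hD1, hD⟩ := exists_sep R hR
  obtain ⟨N, hN1, hN2, hN3, hN4⟩ := (hfreq.and_eventually ((eventually_ge_atTop (D + 1)).and
    ((eventually_ge_atTop N₁).and hRF))).exists
  have hN0 : 0 < N := by omega
  have hN' : (0 : ℝ) < N := by exact_mod_cast hN0
  have hDN : (D : ℝ) ≤ N := by exact_mod_cast (by omega : D ≤ N)
  have h1 := hN4 hN1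
  rw [seg_card] at hN1
  have h2 := moment_sep (seg_sub A N) (by omega : 1 ≤ h) D hD1 R hD
  have h4 : c ^ 2 * (N : ℝ) ^ 2 ≤ ((seg A N).card : ℝ) ^ (2 * h) := by
    have h5 : (c * N) ^ 2 ≤ (((seg A N).card : ℝ) ^ h) ^ 2 :=
      pow_le_pow_left₀ (by positivity) hN1 2
    rw [mul_pow, ← pow_mul, mul_comm h 2] at h5
    exact h5
  have h5 : (m : ℝ) * ((c ^ 2 * (N : ℝ) ^ 2) / (8 ^ h * T)) ≤ 6 * (h + 1) * B * (N : ℝ) ^ 2 := by
    calc (m : ℝ) * ((c ^ 2 * (N : ℝ) ^ 2) / (8 ^ h * T))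
        ≤ m * (((seg A N).card : ℝ) ^ (2 * h) / (8 ^ h * T)) := by
          apply mul_le_mul_of_nonneg_left _ (Nat.cast_nonneg _)
          exact div_le_div_of_nonneg_right h4 (by positivity)
      _ ≤ _ := h1
      _ ≤ _ := h2
      _ ≤ 6 * (h * N + N) * (B * N) := by
          apply mul_le_mul _ (hsum N hN3 hN0).1 (Finset.sum_nonneg fun n _ => by positivity)
            (by positivity)
          linarith
      _ = _ := by ring
  rw [div_lt_iff₀ (by positivity)] at hm
  have h8 : (m : ℝ) * ((c ^ 2 * (N : ℝ) ^ 2) / (8 ^ h * T)) =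
      (m * c ^ 2) * (N : ℝ) ^ 2 / (8 ^ h * T) := by ring
  rw [h8, div_le_iff₀ (by positivity)] at h5
  have h9 : (6 * (h + 1) * B * (8 ^ h * T)) * (N : ℝ) ^ 2 < (m * c ^ 2) * (N : ℝ) ^ 2 :=
    mul_lt_mul_of_pos_right hm (by positivity)
  have h10 : 6 * (h + 1) * B * (N : ℝ) ^ 2 * (8 ^ h * T) =
      (6 * (h + 1) * B * (8 ^ h * T)) * (N : ℝ) ^ 2 := by ring
  linarith

end Pool.Agent.Y416.KG
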