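import Mathlib
import Pool.Agent.Y416.KG

/-!
# Bounded representation functions and the number of different sections modulo `q`: main theorem
-/

set_option autoImplicit false

open Finset Filter Topology

namespace Pool.Agent.Y416.KG

open Pool.Agent.Helper112 Pool.Agent.TH314.ETH
open Pool.Agent.TH314.ET hiding rep Thick MeanSq


/-! ### Thin sets -/

/-- `o(N ^ (1 / h))` elements up to `N` -/
def Thin (D : Set ℕ) (h : ℕ) : Prop :=
  ∀ ε : ℝ, 0 < ε → ∀ᶠ N : ℕ in atTop, ((D ∩ Set.Icc 1 N).ncard : ℝ) ^ h ≤ ε * N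

/-- the two sets differ by a thin set -/
def Near (h : ℕ) (S S' : Set ℕ) : Prop := Thin ((S \ S') ∪ (S' \ S)) h

/-- the number of classes of the sections modulo `q`, up to thin sets -/
noncomputable def kernN (A : Set ℕ) (h q : ℕ) : ℕ :=
  {C : Set (Set ℕ) | ∃ u < q, C = {S | Near h S (sec A q u)}}.ncard

theorem fin_int (D : Set ℕ) (N : ℕ) : (D ∩ Set.Icc 1 N).Finite :=
  (Set.finite_Icc 1 N).subset Set.inter_subset_right

theorem Thin.mono {D D' : Set ℕ} {h : ℕ} (hD : Thin D h) (hsub : D' ⊆ D) : Thin D' h := by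
  intro ε hε
  filter_upwards [hD ε hε] with N hN
  refine le_trans ?_ hN
  apply pow_le_pow_left₀ (Nat.cast_nonneg _)
  have := Set.ncard_le_ncard (Set.inter_subset_inter_left (Set.Icc 1 N) hsub) (fin_int D N)
  exact_mod_cast this

theorem Thin.union {D D' : Set ℕ} {h : ℕ} (hD : Thin D h) (hD' : Thin D' h) :
    Thin (D ∪ D') h := by
  intro ε hε
  filter_upwards [hD (ε / 2 ^ h) (by positivity), hD' (ε / 2 ^ h) (by positivity)] with N h1 h2
  have h3 : ((D ∪ D') ∩ Set.Icc 1 N).ncard ≤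
      (D ∩ Set.Icc 1 N).ncard + (D' ∩ Set.Icc 1 N).ncard := by
    rw [Set.union_inter_distrib_right]
    exact Set.ncard_union_le _ _
  have h4 : (((D ∪ D') ∩ Set.Icc 1 N).ncard : ℝ) ≤
      (D ∩ Set.Icc 1 N).ncard + (D' ∩ Set.Icc 1 N).ncard := by exact_mod_cast h3
  set a : ℝ := ((D ∩ Set.Icc 1 N).ncard : ℝ) with ha
  set b : ℝ := ((D' ∩ Set.Icc 1 N).ncard : ℝ) with hb
  have ha0 : 0 ≤ a := Nat.cast_nonneg _
  have hb0 : 0 ≤ b := Nat.cast_nonneg _
  have h5 : a + b ≤ 2 * max a b := by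
    rcases le_total a b with h | h
    · rw [max_eq_right h]; linarith
    · rw [max_eq_left h]; linarith
  have h6 : (max a b) ^ h ≤ ε / 2 ^ h * N := by
    rcases le_total a b with h | h
    · rw [max_eq_right h]; exact h2
    · rw [max_eq_left h]; exact h1
  calc (((D ∪ D') ∩ Set.Icc 1 N).ncard : ℝ) ^ h ≤ (2 * max a b) ^ h :=
        pow_le_pow_left₀ (Nat.cast_nonneg _) (h4.trans h5) h
    _ = 2 ^ h * (max a b) ^ h := by rw [mul_pow]
    _ ≤ 2 ^ h * (ε / 2 ^ h * N) := mul_le_mul_of_nonneg_left h6 (by positivity)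
    _ = ε * N := by field_simp

theorem Thin.sec {D : Set ℕ} {h : ℕ} (hD : Thin D h) {q : ℕ} (hq : 0 < q) (u : ℕ) :
    Thin (KG.sec D q u) h := by
  intro ε hε
  have hq' : (0 : ℝ) < (q + u : ℕ) := by exact_mod_cast (by omega : 0 < q + u)
  have h1 := hD (ε / (q + u : ℕ)) (by positivity)
  rw [eventually_atTop] at h1
  obtain ⟨N₀, h1⟩ := h1
  filter_upwards [eventually_ge_atTop N₀, eventually_ge_atTop 1] with N hN hN1
  have hle : N ≤ (q + u) * N := Nat.le_mul_of_pos_left N (by omega)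
  have h2 := h1 ((q + u) * N) (by omega)
  have h3 : (KG.sec D q u ∩ Set.Icc 1 N).ncard ≤ (D ∩ Set.Icc 1 ((q + u) * N)).ncard := by
    refine Set.ncard_le_ncard_of_injOn (fun n => q * n + u) ?_ ?_ (fin_int _ _)
    · rintro n ⟨h3, h4, h5⟩
      refine ⟨h3, ?_, ?_⟩
      · show 1 ≤ q * n + u
        have : 1 ≤ q * n := Nat.mul_pos hq h4
        omega
      · show q * n + u ≤ (q + u) * N
        have h6 : q * n ≤ q * N := Nat.mul_le_mul_left _ h5
        have h7 : u ≤ u * N := Nat.le_mul_of_pos_right u hN1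
        rw [add_mul]
        omega
    · intro a _ b _ hab
      simp only [Nat.add_right_cancel_iff] at hab
      exact Nat.eq_of_mul_eq_mul_left hq hab
  have h4 : ((KG.sec D q u ∩ Set.Icc 1 N).ncard : ℝ) ≤ (D ∩ Set.Icc 1 ((q + u) * N)).ncard := by
    exact_mod_cast h3
  calc ((KG.sec D q u ∩ Set.Icc 1 N).ncard : ℝ) ^ h ≤
        ((D ∩ Set.Icc 1 ((q + u) * N)).ncard : ℝ) ^ h :=
        pow_le_pow_left₀ (Nat.cast_nonneg _) h4 h
    _ ≤ ε / (q + u : ℕ) * (((q + u) * N : ℕ) : ℝ) := h2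
    _ = ε * N := by push_cast; field_simp

theorem Near.refl {h : ℕ} (hh : 1 ≤ h) (S : Set ℕ) : Near h S S := by
  intro ε hε
  refine Eventually.of_forall fun N => ?_
  rw [sdiff_self, Set.union_self, Set.bot_eq_empty, Set.empty_inter, Set.ncard_empty, Nat.cast_zero,
    zero_pow (by omega)]
  positivity

theorem Near.symm {h : ℕ} {S S' : Set ℕ} (hS : Near h S S') : Near h S' S := by
  unfold Near at hS ⊢
  rwa [Set.union_comm]

theorem Near.trans {h : ℕ} {S S' S'' : Set ℕ} (h1 : Near h S S') (h2 : Near h S' S'') :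
    Near h S S'' := by
  refine (Thin.union h1 h2).mono ?_
  intro n hn
  by_cases h3 : n ∈ S'
  · rcases hn with ⟨h4, h5⟩ | ⟨h4, h5⟩
    · exact Or.inr (Or.inl ⟨h3, h5⟩)
    · exact Or.inl (Or.inr ⟨h3, h5⟩)
  · rcases hn with ⟨h4, h5⟩ | ⟨h4, h5⟩
    · exact Or.inl (Or.inl ⟨h4, h3⟩)
    · exact Or.inr (Or.inr ⟨h4, h3⟩)

theorem Near.sec {h : ℕ} {S S' : Set ℕ} (h1 : Near h S S') {q : ℕ} (hq : 0 < q) (u : ℕ) :
    Near h (KG.sec S q u) (KG.sec S' q u) := Thin.sec h1 hq u

theorem class_eq {h : ℕ} {S S' : Set ℕ} (h1 : Near h S S') :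
    {X | Near h X S} = {X | Near h X S'} := by
  ext X
  exact ⟨fun h2 => h2.trans h1, fun h2 => h2.trans h1.symm⟩

theorem sections_finite (A : Set ℕ) (h q : ℕ) :
    {C : Set (Set ℕ) | ∃ u < q, C = {S | Near h S (sec A q u)}}.Finite := by
  have : {C : Set (Set ℕ) | ∃ u < q, C = {S | Near h S (sec A q u)}} =
      (fun u => {S | Near h S (sec A q u)}) '' (Set.Iio q) := by
    ext S
    constructor
    · rintro ⟨u, hu, rfl⟩
      exact ⟨u, hu, rfl⟩
    · rintro ⟨u, hu, rfl⟩
      exact ⟨u, hu, rfl⟩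
  rw [this]
  exact (Set.finite_Iio q).image _

theorem kern_pos (A : Set ℕ) (h : ℕ) {q : ℕ} (hq : 0 < q) : 1 ≤ kernN A h q := by
  unfold kernN
  rw [Nat.one_le_iff_ne_zero, Ne, Set.ncard_eq_zero (sections_finite A h q)]
  intro h1
  have : {S | Near h S (sec A q 0)} ∈
      ({C : Set (Set ℕ) | ∃ u < q, C = {S | Near h S (sec A q u)}}) := ⟨0, hq, rfl⟩
  rw [h1] at this
  exact this

theorem sec_sec (A : Set ℕ) (q u q' v : ℕ) : sec (sec A q u) q' v = sec A (q * q') (q * v + u) := by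
  ext n
  simp only [sec, Set.mem_setOf_eq]
  have : q * (q' * n + v) + u = q * q' * n + (q * v + u) := by ring
  rw [this]

theorem sec_inter (A B : Set ℕ) (q u : ℕ) : sec (A ∩ B) q u = sec A q u ∩ sec B q u := rfl

/-- a section of a section modulo `q'` is a section of a section modulo `q'` of `A` -/
theorem kern_sec (A B : Set ℕ) {h q q' u : ℕ} (hh : 1 ≤ h) (hq : 0 < q) (hq' : 0 < q')
    (hu : u < q) (hB : Near h B (sec A q u)) : kernN B h q' ≤ q * kernN A h q' := by
  classical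
  have hfin := sections_finite A h q'
  set X := {C : Set (Set ℕ) | ∃ u < q', C = {S | Near h S (sec A q' u)}} with hX
  have hsub : {C : Set (Set ℕ) | ∃ v < q', C = {S | Near h S (sec B q' v)}} ⊆
      (fun x : ℕ × Set (Set ℕ) => {S | ∃ S' ∈ x.2, Near h S (sec S' q x.1)}) ''
        ((Set.Iio q) ×ˢ X) := by
    rintro C ⟨v, hv, rfl⟩
    have hw : q * v + u < q * q' := by
      calc q * v + u < q * v + q := by omega
        _ = q * (v + 1) := by ring
        _ ≤ q * q' := Nat.mul_le_mul_left _ hv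
    refine ⟨((q * v + u) / q', {S | Near h S (sec A q' ((q * v + u) % q'))}), ⟨?_, ?_⟩, ?_⟩
    · show (q * v + u) / q' < q
      rw [Nat.div_lt_iff_lt_mul hq']
      exact hw
    · exact ⟨_, Nat.mod_lt _ hq', rfl⟩
    · have e1 : sec (sec A q' ((q * v + u) % q')) q ((q * v + u) / q') = sec (sec A q u) q' v := by
        rw [sec_sec, sec_sec, mul_comm q' q, Nat.div_add_mod]
      have e2 : Near h (sec B q' v) (sec (sec A q u) q' v) := hB.sec hq' v
      ext S
      simp only [Set.mem_setOf_eq]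
      constructor
      · rintro ⟨S', h1, h2⟩
        have h3 := h1.sec hq ((q * v + u) / q')
        rw [e1] at h3
        exact h2.trans (h3.trans e2.symm)
      · intro h1
        refine ⟨sec A q' ((q * v + u) % q'), Near.refl hh _, ?_⟩
        rw [e1]
        exact h1.trans e2
  unfold kernN
  calc ({C : Set (Set ℕ) | ∃ v < q', C = {S | Near h S (sec B q' v)}}).ncard
      ≤ ((fun x : ℕ × Set (Set ℕ) => {S | ∃ S' ∈ x.2, Near h S (sec S' q x.1)}) ''
        ((Set.Iio q) ×ˢ X)).ncard :=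
        Set.ncard_le_ncard hsub (((Set.finite_Iio q).prod hfin).image _)
    _ ≤ ((Set.Iio q) ×ˢ X).ncard := Set.ncard_image_le ((Set.finite_Iio q).prod hfin)
    _ = q * X.ncard := by
        rw [Set.ncard_prod]
        congr 1
        rw [← Finset.coe_range, Set.ncard_coe_finset, Finset.card_range]

/-- a set near a thick set contains a thick part of it -/
theorem thick_inter {S S' : Set ℕ} {h : ℕ} (hh : 1 ≤ h) (hS : Thick S h) (hn : Near h S S') :
    Thick (S ∩ S') h := by
  obtain ⟨c, hc, hfreq⟩ := hS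
  refine ⟨c / 2 ^ h, by positivity, ?_⟩
  have h1 : ∀ᶠ N : ℕ in atTop, (((S \ S') ∩ Set.Icc 1 N).ncard : ℝ) ^ h ≤ c / 2 ^ h * N :=
    (hn.mono (Set.subset_union_left)) (c / 2 ^ h) (by positivity)
  refine (hfreq.and_eventually h1).mono ?_
  rintro N ⟨h2, h3⟩
  have h4 : (S ∩ Set.Icc 1 N).ncard ≤ ((S \ S') ∩ Set.Icc 1 N).ncard +
      ((S ∩ S') ∩ Set.Icc 1 N).ncard := by
    refine le_trans (Set.ncard_le_ncard ?_ ((fin_int _ N).union (fin_int _ N)))
      (Set.ncard_union_le _ _)
    rintro n ⟨h5, h6⟩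
    by_cases h7 : n ∈ S'
    · exact Or.inr ⟨⟨h5, h7⟩, h6⟩
    · exact Or.inl ⟨⟨h5, h7⟩, h6⟩
  have h4' : ((S ∩ Set.Icc 1 N).ncard : ℝ) ≤ ((S \ S') ∩ Set.Icc 1 N).ncard +
      ((S ∩ S') ∩ Set.Icc 1 N).ncard := by exact_mod_cast h4
  set a : ℝ := ((S ∩ Set.Icc 1 N).ncard : ℝ) with ha
  set b : ℝ := (((S \ S') ∩ Set.Icc 1 N).ncard : ℝ) with hb
  have ha0 : 0 ≤ a := Nat.cast_nonneg _
  have h5 : b ≤ a / 2 := by
    have h6 : b ^ h ≤ (a / 2) ^ h := by
      rw [div_pow]
      calc b ^ h ≤ c / 2 ^ h * N := h3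
        _ = c * N / 2 ^ h := by ring
        _ ≤ a ^ h / 2 ^ h := div_le_div_of_nonneg_right h2 (by positivity)
    exact le_of_pow_le_pow_left₀ (by omega) (by positivity) h6
  have h6 : a / 2 ≤ (((S ∩ S') ∩ Set.Icc 1 N).ncard : ℝ) := by linarith
  calc c / 2 ^ h * N = c * N / 2 ^ h := by ring
    _ ≤ a ^ h / 2 ^ h := div_le_div_of_nonneg_right h2 (by positivity)
    _ = (a / 2) ^ h := by rw [div_pow]
    _ ≤ _ := pow_le_pow_left₀ (by positivity) h6 h

theorem rep_mono {A B : Set ℕ} (hAB : B ⊆ A) (h n : ℕ) : rep B h n ≤ rep A h n := by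
  unfold rep
  refine Set.ncard_le_ncard ?_ (msets_finite _ _ _)
  rintro m ⟨h1, h2, h3⟩
  exact ⟨h1, fun a ha => hAB (h2 a ha), h3⟩

theorem msets_map {A : Set ℕ} {q u h : ℕ} (hq : 0 < q) (s : ℕ) :
    rep (sec A q u) h s ≤ rep A h (q * s + h * u) := by
  unfold rep
  refine Set.ncard_le_ncard_of_injOn (fun m : Multiset ℕ => m.map (fun n => q * n + u)) ?_ ?_
    (msets_finite _ _ _)
  · rintro m ⟨h1, h2, h3⟩
    refine ⟨by rw [Multiset.card_map]; exact h1, ?_, ?_⟩
    · intro a ha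
      obtain ⟨b, hb, rfl⟩ := Multiset.mem_map.1 ha
      exact h2 b hb
    · have : (m.map (fun n => q * n + u)).sum = q * m.sum + Multiset.card m * u := by
        rw [Multiset.sum_map_add, Multiset.sum_map_mul_left, Multiset.map_id']
        congr 1
        rw [Multiset.map_const', Multiset.sum_replicate, smul_eq_mul]
      rw [this, h1, h3]
  · intro m _ m' _ hmm
    apply Multiset.map_injective _ hmm
    intro a b hab
    simp only [Nat.add_right_cancel_iff] at hab
    exact Nat.eq_of_mul_eq_mul_left hq hab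

/-- the ordered representations as a sum of two elements -/
noncomputable def r2 (A : Set ℕ) (n : ℕ) : ℕ := {p : ℕ × ℕ | p.1 ∈ A ∧ p.2 ∈ A ∧ p.1 + p.2 = n}.ncard

theorem r2_finite (A : Set ℕ) (n : ℕ) : {p : ℕ × ℕ | p.1 ∈ A ∧ p.2 ∈ A ∧ p.1 + p.2 = n}.Finite := by
  refine ((Set.finite_Iic n).prod (Set.finite_Iic n)).subset ?_
  rintro ⟨x, y⟩ ⟨_, _, h⟩
  simp only at h
  exact ⟨by simp only [Set.mem_Iic]; omega, by simp only [Set.mem_Iic]; omega⟩

/-- the intersection of two sections doubles the representation function -/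
theorem r2_double {A : Set ℕ} {q u v : ℕ} (huq : u < q) (hvq : v < q) (huv : u ≠ v) (s : ℕ) :
    2 * r2 (sec A q u ∩ sec A q v) s ≤ r2 A (q * s + u + v) := by
  classical
  set B := sec A q u ∩ sec A q v with hB
  have hBu : ∀ n ∈ B, q * n + u ∈ A := fun n hn => hn.1
  have hBv : ∀ n ∈ B, q * n + v ∈ A := fun n hn => hn.2
  set S := {p : ℕ × ℕ | p.1 ∈ B ∧ p.2 ∈ B ∧ p.1 + p.2 = s} with hS
  have hSf : S.Finite := r2_finite B s
  let f : ℕ × ℕ → ℕ × ℕ := fun p => (q * p.1 + u, q * p.2 + v)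
  let g : ℕ × ℕ → ℕ × ℕ := fun p => (q * p.1 + v, q * p.2 + u)
  have hq : 0 < q := by omega
  have hf : Set.InjOn f S := by
    rintro ⟨a, b⟩ _ ⟨c, d⟩ _ h
    simp only [f, Prod.mk.injEq, Nat.add_right_cancel_iff] at h
    exact Prod.ext (Nat.eq_of_mul_eq_mul_left hq h.1) (Nat.eq_of_mul_eq_mul_left hq h.2)
  have hg : Set.InjOn g S := by
    rintro ⟨a, b⟩ _ ⟨c, d⟩ _ h
    simp only [g, Prod.mk.injEq, Nat.add_right_cancel_iff] at h
    exact Prod.ext (Nat.eq_of_mul_eq_mul_left hq h.1) (Nat.eq_of_mul_eq_mul_left hq h.2)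
  have hdis : Disjoint (f '' S) (g '' S) := by
    rw [Set.disjoint_left]
    rintro x ⟨⟨a, b⟩, _, rfl⟩ ⟨⟨c, d⟩, _, h⟩
    simp only [f, g, Prod.mk.injEq] at h
    have h1 : (q * c + v) % q = (q * a + u) % q := by rw [h.1]
    rw [Nat.mul_add_mod, Nat.mul_add_mod, Nat.mod_eq_of_lt hvq, Nat.mod_eq_of_lt huq] at h1
    exact huv h1.symm
  have hsub : (f '' S) ∪ (g '' S) ⊆ {p : ℕ × ℕ | p.1 ∈ A ∧ p.2 ∈ A ∧ p.1 + p.2 = q * s + u + v} := by
    rintro x (⟨⟨a, b⟩, ⟨h1, h2, h3⟩, rfl⟩ | ⟨⟨a, b⟩, ⟨h1, h2, h3⟩, rfl⟩)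
    · refine ⟨hBu a h1, hBv b h2, ?_⟩
      simp only at h3
      subst h3
      simp only [f]
      ring
    · refine ⟨hBv a h1, hBu b h2, ?_⟩
      simp only at h3
      subst h3
      simp only [g]
      ring
  unfold r2
  calc 2 * S.ncard = (f '' S).ncard + (g '' S).ncard := by
        rw [Set.ncard_image_of_injOn hf, Set.ncard_image_of_injOn hg]
        ring
    _ = ((f '' S) ∪ (g '' S)).ncard :=
        (Set.ncard_union_eq hdis (hSf.image _) (hSf.image _)).symm
    _ ≤ _ := Set.ncard_le_ncard hsub (r2_finite _ _)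

/-- adding a fixed element -/
theorem r2_le {A : Set ℕ} {h : ℕ} (hh : 2 ≤ h) {a0 : ℕ} (ha0 : a0 ∈ A) (n : ℕ) :
    r2 A n ≤ 2 * rep A h (n + (h - 2) * a0) := by
  classical
  have hRfin := r2_finite A n
  set R := {p : ℕ × ℕ | p.1 ∈ A ∧ p.2 ∈ A ∧ p.1 + p.2 = n} with hR
  let φ : ℕ × ℕ → Multiset ℕ := fun p => p.1 ::ₘ p.2 ::ₘ Multiset.replicate (h - 2) a0
  have key : ∀ S : Set (ℕ × ℕ), S ⊆ R → Set.InjOn φ S →
      S.ncard ≤ rep A h (n + (h - 2) * a0) := by
    intro S hS hinj
    refine Set.ncard_le_ncard_of_injOn φ ?_ hinj (msets_finite _ _ _)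
    rintro ⟨a, b⟩ hp
    obtain ⟨ha, hb, hab⟩ := hS hp
    refine ⟨?_, ?_, ?_⟩
    · simp only [φ, Multiset.card_cons, Multiset.card_replicate]
      omega
    · intro x hx
      simp only [φ, Multiset.mem_cons] at hx
      rcases hx with rfl | rfl | hx
      · exact ha
      · exact hb
      · rw [Multiset.eq_of_mem_replicate hx]
        exact ha0
    · simp only [φ, Multiset.sum_cons, Multiset.sum_replicate, smul_eq_mul]
      simp only at hab
      omega
  have hinj : ∀ p ∈ R, ∀ p' ∈ R, φ p = φ p' → p = p' ∨ p = (p'.2, p'.1) := by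
    rintro ⟨a, b⟩ ⟨_, _, h1⟩ ⟨c, d⟩ ⟨_, _, h2⟩ h3
    simp only at h1 h2
    have h4 : (a ::ₘ b ::ₘ (0 : Multiset ℕ)) = c ::ₘ d ::ₘ 0 := by
      have e1 : ∀ x y : ℕ, x ::ₘ y ::ₘ Multiset.replicate (h - 2) a0 =
          (x ::ₘ y ::ₘ (0 : Multiset ℕ)) + Multiset.replicate (h - 2) a0 := by
        intro x y
        simp
      have h5 : (a ::ₘ b ::ₘ (0 : Multiset ℕ)) + Multiset.replicate (h - 2) a0 =
          (c ::ₘ d ::ₘ (0 : Multiset ℕ)) + Multiset.replicate (h - 2) a0 := by
        rw [← e1, ← e1]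
        exact h3
      exact add_right_cancel h5
    have h5 : a ∈ (c ::ₘ d ::ₘ (0 : Multiset ℕ)) := by
      rw [← h4]
      simp
    simp only [Multiset.mem_cons, Multiset.notMem_zero, or_false] at h5
    rcases h5 with rfl | rfl
    · left
      have : b = d := by omega
      rw [this]
    · right
      have : b = c := by omega
      rw [this]
  set R1 := {p | p ∈ R ∧ p.1 ≤ p.2} with hR1
  set R2 := {p | p ∈ R ∧ p.2 ≤ p.1} with hR2
  have hu : R ⊆ R1 ∪ R2 := by
    intro p hp
    rcases le_total p.1 p.2 with h | h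
    · exact Or.inl ⟨hp, h⟩
    · exact Or.inr ⟨hp, h⟩
  have h1 : R1.ncard ≤ rep A h (n + (h - 2) * a0) := by
    apply key R1 (fun p hp => hp.1)
    intro p hp p' hp' hpp
    rcases hinj p hp.1 p' hp'.1 hpp with h2 | h2
    · exact h2
    · have h3 := hp.2
      have h4 := hp'.2
      rw [h2] at h3
      simp only at h3
      have h5 : p'.1 = p'.2 := le_antisymm h4 h3
      rw [h2]
      exact Prod.ext h5.symm h5
  have h2 : R2.ncard ≤ rep A h (n + (h - 2) * a0) := by
    apply key R2 (fun p hp => hp.1)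
    intro p hp p' hp' hpp
    rcases hinj p hp.1 p' hp'.1 hpp with h2 | h2
    · exact h2
    · have h3 := hp.2
      have h4 := hp'.2
      rw [h2] at h3
      simp only at h3
      have h5 : p'.1 = p'.2 := le_antisymm h3 h4
      rw [h2]
      exact Prod.ext h5.symm h5
  unfold r2
  calc R.ncard ≤ (R1 ∪ R2).ncard :=
        Set.ncard_le_ncard hu ((hRfin.subset fun p hp => hp.1).union (hRfin.subset fun p hp => hp.1))
    _ ≤ R1.ncard + R2.ncard := Set.ncard_union_le _ _
    _ ≤ _ := by omega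

theorem seg_mod_card (A : Set ℕ) (q u N : ℕ) (hq : 0 < q) :
    ((seg A N).filter (fun a => a % q = u)).card ≤ (seg (sec A q u) N).card + 1 := by
  classical
  have h1 : ((seg A N).filter (fun a => a % q = u)).image (fun a => a / q) ⊆
      insert 0 (seg (sec A q u) N) := by
    intro n hn
    obtain ⟨a, ha, rfl⟩ := Finset.mem_image.1 hn
    rw [Finset.mem_filter, mem_seg] at ha
    rw [Finset.mem_insert]
    rcases Nat.eq_zero_or_pos (a / q) with h | h
    · exact Or.inl h
    · right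
      rw [mem_seg]
      refine ⟨⟨h, (Nat.div_le_self a q).trans ha.1.1.2⟩, ?_⟩
      show q * (a / q) + u ∈ A
      rw [← ha.2, Nat.div_add_mod]
      exact ha.1.2
  have h2 : (((seg A N).filter (fun a => a % q = u)).image (fun a => a / q)).card =
      ((seg A N).filter (fun a => a % q = u)).card := by
    apply Finset.card_image_of_injOn
    intro a ha b hb hab
    rw [Finset.mem_coe, Finset.mem_filter] at ha hb
    simp only at hab
    rw [← Nat.div_add_mod a q, ← Nat.div_add_mod b q, hab, ha.2, hb.2]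
  rw [← h2]
  exact (Finset.card_le_card h1).trans (Finset.card_insert_le _ _)

/-- **The step.** If the numbers of sections are small for infinitely many moduli, then two sections in
different classes nearly coincide and are thick. -/
theorem step (A : Set ℕ) {h : ℕ} (hh : 2 ≤ h) (hA : Thick A h) (hr : MeanSq A h) (T : ℝ)
    (hT : 0 < T) (hthin : ∀ Q : ℕ, ∃ q, Q ≤ q ∧ (kernN A h q : ℝ) ^ h ≤ T * q) :
    ∃ q u v : ℕ, u < q ∧ v < q ∧ u ≠ v ∧ Near h (sec A q u) (sec A q v) ∧
      Thick (sec A q u) h := by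
  classical
  by_contra hcon
  push Not at hcon
  obtain ⟨c, hc, hfreq⟩ := hA
  refine no_mass A hh c hc hfreq hr (2 ^ h * T) (by positivity) ?_
  intro Q
  obtain ⟨q, hqQ, hq⟩ := hthin (Q + 1)
  have hq0 : 0 < q := by omega
  have hq' : (0 : ℝ) < q := by exact_mod_cast hq0
  set C0 : Finset ℕ := (range q).filter (fun u => ∀ v < q, Near h (sec A q u) (sec A q v) → u = v) with hC0
  have hC0k : C0.card ≤ kernN A h q := by
    have h1 : (C0.card : ℕ) = ((fun u => {S | Near h S (sec A q u)}) '' (C0 : Set ℕ)).ncard := by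
      rw [Set.ncard_image_of_injOn, Set.ncard_coe_finset]
      intro u hu v hv huv
      rw [Finset.mem_coe, hC0, Finset.mem_filter] at hu hv
      apply hu.2 v (mem_range.1 hv.1)
      have h2 : sec A q u ∈ {S | Near h S (sec A q u)} := Near.refl (by omega) _
      simp only at huv
      rw [huv] at h2
      exact h2
    rw [h1]
    apply Set.ncard_le_ncard _ (sections_finite A h q)
    rintro S ⟨u, hu, rfl⟩
    rw [Finset.mem_coe, hC0, Finset.mem_filter] at hu
    exact ⟨u, mem_range.1 hu.1, rfl⟩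
  refine ⟨q, by omega, insert 0 C0, Finset.card_pos.2 ⟨0, Finset.mem_insert_self _ _⟩, ?_, ?_⟩
  · have h1 : (insert 0 C0).card ≤ 2 * kernN A h q := by
      have := kern_pos A h hq0
      have h2 := Finset.card_insert_le 0 C0
      omega
    have h2 : ((insert 0 C0).card : ℝ) ≤ 2 * (kernN A h q : ℝ) := by exact_mod_cast h1
    calc ((insert 0 C0).card : ℝ) ^ h ≤ (2 * (kernN A h q : ℝ)) ^ h :=
          pow_le_pow_left₀ (Nat.cast_nonneg _) h2 h
      _ = 2 ^ h * (kernN A h q : ℝ) ^ h := by rw [mul_pow]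
      _ ≤ 2 ^ h * (T * q) := mul_le_mul_of_nonneg_left hq (by positivity)
      _ = 2 ^ h * T * q := by ring
  · -- the other classes carry little mass
    set ε : ℝ := c / (4 * q) ^ h with hε
    have hε0 : 0 < ε := by positivity
    have hsmall : ∀ u ∈ (range q).filter (· ∉ C0), ∀ᶠ N : ℕ in atTop,
        ((seg (sec A q u) N).card : ℝ) ^ h < ε * N := by
      intro u hu
      rw [Finset.mem_filter] at hu
      have hu1 := mem_range.1 hu.1
      have hu2 : ∃ v < q, Near h (sec A q u) (sec A q v) ∧ u ≠ v := by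
        by_contra h1
        push Not at h1
        apply hu.2
        rw [hC0, Finset.mem_filter]
        exact ⟨hu.1, h1⟩
      obtain ⟨v, hv, h1, h2⟩ := hu2
      have h3 := hcon q u v hu1 hv h2 h1
      unfold Thick at h3
      push Not at h3
      have h4 := h3 ε hε0
      filter_upwards [h4] with N hN
      rw [← seg_card]
      exact hN
    have hall : ∀ᶠ N : ℕ in atTop, ∀ u ∈ (range q).filter (· ∉ C0),
        ((seg (sec A q u) N).card : ℝ) ^ h < ε * N := by
      rw [Filter.eventually_all_finset]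
      exact hsmall
    obtain ⟨N₂, hN₂⟩ := exists_nat_gt ((4 * (q : ℝ)) ^ h / c)
    filter_upwards [hall, eventually_ge_atTop N₂, eventually_ge_atTop 1] with N hN hNN hN1 hP
    have hNpos : (0 : ℝ) < N := by exact_mod_cast hN1
    rw [seg_card] at hP
    set F := seg A N with hF
    have hNr : (N₂ : ℝ) ≤ N := by exact_mod_cast hNN
    -- `4 q ≤ |F|`
    have h4q : 4 * (q : ℝ) ≤ F.card := by
      have h1 : (4 * (q : ℝ)) ^ h ≤ (F.card : ℝ) ^ h := by
        rw [div_lt_iff₀ hc] at hN₂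
        calc (4 * (q : ℝ)) ^ h ≤ N₂ * c := hN₂.le
          _ ≤ N * c := mul_le_mul_of_nonneg_right hNr hc.le
          _ = c * N := mul_comm _ _
          _ ≤ _ := hP
      exact le_of_pow_le_pow_left₀ (by omega) (Nat.cast_nonneg _) h1
    have hcl : ∀ u ∈ (range q).filter (· ∉ C0),
        ((F.filter (fun a => a % q = u)).card : ℝ) ≤ F.card / (2 * q) := by
      intro u hu
      have h1 : ((seg (sec A q u) N).card : ℝ) ≤ F.card / (4 * q) := by
        have h2 : ((seg (sec A q u) N).card : ℝ) ^ h ≤ (F.card / (4 * q) : ℝ) ^ h := by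
          refine (hN u hu).le.trans ?_
          rw [hε, div_pow, div_mul_eq_mul_div]
          exact div_le_div_of_nonneg_right hP (by positivity)
        exact le_of_pow_le_pow_left₀ (by omega) (by positivity) h2
      have h2 : ((F.filter (fun a => a % q = u)).card : ℝ) ≤ (seg (sec A q u) N).card + 1 := by
        exact_mod_cast seg_mod_card A q u N hq0
      have h3 : (1 : ℝ) ≤ F.card / (4 * q) := by
        rw [le_div_iff₀ (by positivity)]
        linarith
      have h4 : (F.card : ℝ) / (2 * q) = F.card / (4 * q) + F.card / (4 * q) := by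
        field_simp
        ring
      rw [h4]
      linarith
    -- the sum over the other classes
    have hsplit : F.card = (F.filter (fun a => a % q ∈ C0)).card +
        (F.filter (fun a => ¬ a % q ∈ C0)).card := (Finset.card_filter_add_card_filter_not _).symm
    have hother : ((F.filter (fun a => ¬ a % q ∈ C0)).card : ℝ) ≤ F.card / 2 := by
      have h1 : (F.filter (fun a => ¬ a % q ∈ C0)).card =
          ∑ u ∈ (range q).filter (· ∉ C0), ((F.filter (fun a => ¬ a % q ∈ C0)).filter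
            (fun a => a % q = u)).card := by
        apply Finset.card_eq_sum_card_fiberwise
        intro a ha
        have ha' := (Finset.mem_filter.1 (Finset.mem_coe.1 ha)).2
        exact Finset.mem_coe.2 (Finset.mem_filter.2 ⟨mem_range.2 (Nat.mod_lt a hq0), ha'⟩)
      rw [h1]
      push_cast
      have h2 : ∀ u ∈ (range q).filter (· ∉ C0), ((((F.filter (fun a => ¬ a % q ∈ C0)).filter
            (fun a => a % q = u)).card : ℕ) : ℝ) ≤ F.card / (2 * q) := by
        intro u hu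
        refine le_trans ?_ (hcl u hu)
        have : ((F.filter (fun a => ¬ a % q ∈ C0)).filter (fun a => a % q = u)).card ≤
            (F.filter (fun a => a % q = u)).card := by
          apply Finset.card_le_card
          intro a ha
          rw [Finset.mem_filter, Finset.mem_filter] at ha
          exact Finset.mem_filter.2 ⟨ha.1.1, ha.2⟩
        exact_mod_cast this
      refine (Finset.sum_le_sum h2).trans ?_
      rw [Finset.sum_const, nsmul_eq_mul]
      have h3 : (((range q).filter (· ∉ C0)).card : ℝ) ≤ q := by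
        have : ((range q).filter (· ∉ C0)).card ≤ (range q).card :=
          Finset.card_le_card (Finset.filter_subset _ _)
        rw [Finset.card_range] at this
        exact_mod_cast this
      calc (((range q).filter (· ∉ C0)).card : ℝ) * (F.card / (2 * q))
          ≤ q * (F.card / (2 * q)) := mul_le_mul_of_nonneg_right h3 (by positivity)
        _ = F.card / 2 := by field_simp
    have hmain : (F.card : ℝ) ≤ 2 * ((F.filter (fun a => a % q ∈ C0)).card : ℝ) := by
      have h1 : (F.card : ℝ) = (F.filter (fun a => a % q ∈ C0)).card +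
          (F.filter (fun a => ¬ a % q ∈ C0)).card := by exact_mod_cast hsplit
      linarith
    have hmono : (F.filter (fun a => a % q ∈ C0)).card ≤
        (F.filter (fun a => a % q ∈ insert 0 C0)).card := by
      apply Finset.card_le_card
      intro a ha
      rw [Finset.mem_filter] at ha ⊢
      exact ⟨ha.1, Finset.mem_insert_of_mem ha.2⟩
    have h5 : F.card ≤ 2 * (F.filter (fun a => a % q ∈ C0)).card := by exact_mod_cast hmain
    omega

theorem thick_nonempty {A : Set ℕ} {h : ℕ} (hh : 1 ≤ h) (hA : Thick A h) : A.Nonempty := by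
  obtain ⟨c, hc, hfreq⟩ := hA
  obtain ⟨N, hN1, hN2⟩ := (hfreq.and_eventually (eventually_ge_atTop 1)).exists
  by_contra h1
  rw [Set.not_nonempty_iff_eq_empty] at h1
  subst h1
  simp only [Set.empty_inter, Set.ncard_empty, Nat.cast_zero] at hN1
  rw [zero_pow (by omega)] at hN1
  have : (0 : ℝ) < N := by exact_mod_cast hN2
  have h2 : 0 < c * (N : ℝ) := by positivity
  linarith

/-- the iteration -/
theorem iterate {h : ℕ} (hh : 2 ≤ h) (t : ℕ) : ∀ A : Set ℕ, Thick A h →
    (∃ K : ℕ, ∀ n, rep A h n ≤ K) →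
    (∃ T : ℝ, 0 < T ∧ ∀ Q : ℕ, ∃ q, Q ≤ q ∧ (kernN A h q : ℝ) ^ h ≤ T * q) →
    ∃ n, 2 ^ t ≤ r2 A n := by
  induction t with
  | zero =>
    intro A hA _ _
    obtain ⟨a, ha⟩ := thick_nonempty (by omega) hA
    refine ⟨a + a, ?_⟩
    rw [pow_zero, Nat.one_le_iff_ne_zero]
    unfold r2
    rw [Ne, Set.ncard_eq_zero (r2_finite _ _)]
    intro h1
    have : (a, a) ∈ {p : ℕ × ℕ | p.1 ∈ A ∧ p.2 ∈ A ∧ p.1 + p.2 = a + a} := ⟨ha, ha, rfl⟩
    rw [h1] at this
    exact this
  | succ t ih =>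
    rintro A hA ⟨K, hK⟩ ⟨T, hT, hthin⟩
    obtain ⟨q, u, v, hu, hv, huv, heq, hB⟩ :=
      step A hh hA (meanSq_of_bounded A h ⟨K, hK⟩) T hT hthin
    have hq : 0 < q := by omega
    have hq' : (0 : ℝ) < q := by exact_mod_cast hq
    set B := sec A q u ∩ sec A q v with hBd
    have hBn : Near h B (sec A q u) := by
      refine heq.mono ?_
      rintro n (⟨⟨h1, _⟩, h3⟩ | ⟨h1, h2⟩)
      · exact absurd h1 h3
      · exact Or.inl ⟨h1, fun h3 => h2 ⟨h1, h3⟩⟩
    obtain ⟨s, hs⟩ := ih B (thick_inter (by omega) hB heq)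
      ⟨K, fun n => (rep_mono Set.inter_subset_left h n).trans ((msets_map hq n).trans (hK _))⟩
      ⟨(q : ℝ) ^ h * T, by positivity, fun Q => by
        obtain ⟨q', hQ', hk⟩ := hthin (Q + 1)
        refine ⟨q', by omega, ?_⟩
        have h1 : (kernN B h q' : ℝ) ≤ q * kernN A h q' := by
          exact_mod_cast kern_sec A B (by omega) hq (by omega : 0 < q') hu hBn
        calc (kernN B h q' : ℝ) ^ h ≤ (q * kernN A h q' : ℝ) ^ h :=
              pow_le_pow_left₀ (Nat.cast_nonneg _) h1 h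
          _ = (q : ℝ) ^ h * (kernN A h q' : ℝ) ^ h := by rw [mul_pow]
          _ ≤ (q : ℝ) ^ h * (T * q') := mul_le_mul_of_nonneg_left hk (by positivity)
          _ = (q : ℝ) ^ h * T * q' := by ring⟩
    refine ⟨q * s + u + v, ?_⟩
    have h1 := r2_double (A := A) hu hv huv s
    rw [← hBd] at h1
    rw [pow_succ]
    omega

/-- **Main theorem.** -/
theorem main {h : ℕ} (hh : 2 ≤ h) (A : Set ℕ) (hA : Thick A h)
    (hK : ∃ K : ℕ, ∀ n, rep A h n ≤ K) :
    Tendsto (fun q : ℕ => (kernN A h q : ℝ) ^ h / q) atTop atTop := by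
  rw [tendsto_atTop]
  intro b
  by_contra hcon
  rw [not_eventually] at hcon
  obtain ⟨K, hK'⟩ := hK
  obtain ⟨n, hn⟩ := iterate hh (2 * K + 1) A hA ⟨K, hK'⟩ ⟨max b 1, lt_of_lt_of_le one_pos
    (le_max_right _ _), fun Q => by
      obtain ⟨q, hq1, hq2⟩ := (frequently_atTop.1 hcon) (Q + 1)
      refine ⟨q, by omega, ?_⟩
      push Not at hq2
      have hq' : (0 : ℝ) < q := by exact_mod_cast (by omega : 0 < q)
      rw [div_lt_iff₀ hq'] at hq2
      exact hq2.le.trans (mul_le_mul_of_nonneg_right (le_max_left _ _) hq'.le)⟩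
  obtain ⟨a, ha⟩ := thick_nonempty (by omega) hA
  have h1 := r2_le hh ha n
  have h2 := hK' (n + (h - 2) * a)
  have h3 : 2 * K + 1 < 2 ^ (2 * K + 1) := Nat.lt_two_pow_self
  omega

end Pool.Agent.Y416.KG
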