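import Mathlib

set_option autoImplicit false
set_option linter.unusedSectionVars false

/-!
# Three-graphs given by a function, and their automorphisms

`Hyp sd F` is the set of the 4-sets with two elements on each side on which `F` sums up to one.
-/

namespace Pool.Agent.Y416.ThreeGraph

open Finset

variable {X : Type} [Fintype X] [DecidableEq X]

/-- the sum of `F` over the pairs from the two sides -/
def W (sd : X → Bool) (F : X → X → ZMod 2) (e : Finset X) : ZMod 2 :=
  ∑ a ∈ e.filter (fun x => sd x = false), ∑ b ∈ e.filter (fun x => sd x = true), F a b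

/-- the hyperedges -/
def Hyp (sd : X → Bool) (F : X → X → ZMod 2) : Finset (Finset X) :=
  Finset.univ.filter (fun e => (e.filter (fun x => sd x = false)).card = 2 ∧
    (e.filter (fun x => sd x = true)).card = 2 ∧ W sd F e = 1)

theorem mem_Hyp (sd : X → Bool) (F : X → X → ZMod 2) (e : Finset X) :
    e ∈ Hyp sd F ↔ (e.filter (fun x => sd x = false)).card = 2 ∧
    (e.filter (fun x => sd x = true)).card = 2 ∧ W sd F e = 1 := by
  simp [Hyp]

theorem filter_ft (sd : X → Bool) (e : Finset X) :
    e.filter (fun x => ¬ sd x = false) = e.filter (fun x => sd x = true) := by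
  ext x; simp

theorem card_split (sd : X → Bool) (e : Finset X) :
    (e.filter (fun x => sd x = false)).card + (e.filter (fun x => sd x = true)).card = e.card := by
  rw [← filter_ft]
  exact Finset.card_filter_add_card_filter_not _

theorem union_split (sd : X → Bool) (e : Finset X) :
    (e.filter (fun x => sd x = false)) ∪ (e.filter (fun x => sd x = true)) = e := by
  rw [← filter_ft]
  exact Finset.filter_union_filter_not_eq _ _

theorem filter_side (sd : X → Bool) (e : Finset X) (v : X) :
    (e.filter (fun w => sd v = sd w)) = e.filter (fun w => sd w = sd v) := by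
  ext w; simp [eq_comm]

theorem hyp_card (sd : X → Bool) (F : X → X → ZMod 2) :
    ∀ e ∈ Hyp sd F, e.card = 4 ∧ ∀ v ∈ e, (e.filter (fun w => sd v = sd w)).card = 2 := by
  intro e he
  rw [mem_Hyp] at he
  obtain ⟨h1, h2, _⟩ := he
  refine ⟨by rw [← card_split sd e, h1, h2], ?_⟩
  intro v _
  rw [filter_side]
  cases h : sd v
  · exact h1
  · exact h2

theorem two_mul_z2 (x : ZMod 2) : x + x = 0 := by
  revert x; decide

theorem z2_ite (x : ZMod 2) : (if x = 1 then (1 : ZMod 2) else 0) = x := by
  revert x; decide

theorem sum_erase_zero {S : Finset X} (hS : S.card = 3) (t : X → ZMod 2) :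
    ∑ x ∈ S, ∑ a ∈ S.erase x, t a = 0 := by
  have h1 : ∀ x ∈ S, ∑ a ∈ S.erase x, t a = (∑ a ∈ S, t a) + t x := by
    intro x hx
    rw [← Finset.add_sum_erase S t hx]
    have := two_mul_z2 (t x)
    linear_combination (-1 : ZMod 2) * this
  rw [Finset.sum_congr rfl h1, Finset.sum_add_distrib, Finset.sum_const, hS]
  have := two_mul_z2 (∑ a ∈ S, t a)
  rw [nsmul_eq_mul]
  push_cast
  linear_combination (2 : ZMod 2) * this

/-- generic parity argument -/
theorem even_aux (sd : X → Bool) (F : X → X → ZMod 2) (S A B : Finset X) (hA : A.card = 3)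
    (hB : B.card = 2) (s : Bool) (hAS : S.filter (fun x => sd x = s) = A)
    (hBS : S.filter (fun x => sd x = !s) = B) (G : X → ZMod 2)
    (hW : ∀ x ∈ A, W sd F (S.erase x) = ∑ a ∈ A.erase x, G a) :
    Even ((Hyp sd F).filter (fun e => e ⊆ S)).card := by
  have hS : A ∪ B = S := by
    rw [← hAS, ← hBS]
    cases s
    · exact union_split sd S
    · rw [Finset.union_comm]; exact union_split sd S
  have hsplit : ∀ e : Finset X, ((e.filter (fun x => sd x = false)).card = 2 ∧
    (e.filter (fun x => sd x = true)).card = 2) ↔ ((e.filter (fun x => sd x = s)).card = 2 ∧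
    (e.filter (fun x => sd x = !s)).card = 2) := by
    intro e
    cases s
    · simp
    · simp [and_comm]
  have hunion : ∀ e : Finset X, (e.filter (fun x => sd x = s)) ∪ (e.filter (fun x => sd x = !s)) = e := by
    intro e
    cases s
    · exact union_split sd e
    · rw [Finset.union_comm]; exact union_split sd e
  have hAs : ∀ x ∈ A, sd x = s := by
    intro x hx; rw [← hAS] at hx; exact (Finset.mem_filter.1 hx).2
  have hBs : ∀ x ∈ B, sd x = !s := by
    intro x hx; rw [← hBS] at hx; exact (Finset.mem_filter.1 hx).2
  have hAsub : A ⊆ S := by rw [← hAS]; exact Finset.filter_subset _ _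
  have key : (Hyp sd F).filter (fun e => e ⊆ S) =
      (A.filter (fun x => W sd F (S.erase x) = 1)).image (fun x => S.erase x) := by
    ext e
    simp only [Finset.mem_filter, Finset.mem_image, mem_Hyp]
    constructor
    · rintro ⟨⟨h1, h2, h3⟩, h4⟩
      obtain ⟨h5, h6⟩ := (hsplit e).1 ⟨h1, h2⟩
      have h7 : e.filter (fun x => sd x = !s) = B := by
        apply Finset.eq_of_subset_of_card_le
        · rw [← hBS]; exact Finset.filter_subset_filter _ h4
        · rw [h6, hB]
      have h8 : e.filter (fun x => sd x = s) ⊆ A := by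
        rw [← hAS]; exact Finset.filter_subset_filter _ h4
      have h9 : (A \ e.filter (fun x => sd x = s)).card = 1 := by
        rw [Finset.card_sdiff_of_subset h8, hA, h5]
      obtain ⟨x, hx⟩ := Finset.card_eq_one.1 h9
      have hxA : x ∈ A \ e.filter (fun x => sd x = s) := by rw [hx]; exact Finset.mem_singleton_self _
      rw [Finset.mem_sdiff] at hxA
      have h10 : S.erase x = e := by
        rw [← hunion e, h7]
        ext y
        rw [Finset.mem_erase, Finset.mem_union]
        constructor
        · rintro ⟨hyx, hyS⟩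
          rw [← hS, Finset.mem_union] at hyS
          rcases hyS with hy | hy
          · left
            by_contra hcon
            have : y ∈ A \ e.filter (fun x => sd x = s) := Finset.mem_sdiff.2 ⟨hy, hcon⟩
            rw [hx, Finset.mem_singleton] at this
            exact hyx this
          · exact Or.inr hy
        · rintro (hy | hy)
          · refine ⟨?_, h4 (Finset.mem_filter.1 hy).1⟩
            rintro rfl
            exact hxA.2 hy
          · refine ⟨?_, by rw [← hS]; exact Finset.mem_union_right _ hy⟩
            rintro rfl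
            have h11 := hBs _ hy
            rw [hAs _ hxA.1] at h11
            cases s <;> simp at h11
      exact ⟨x, ⟨hxA.1, by rw [h10]; exact h3⟩, h10⟩
    · rintro ⟨x, ⟨hxA, hx1⟩, rfl⟩
      have hb : (S.erase x).filter (fun y => sd y = s) = A.erase x := by
        rw [← hAS]; ext y; simp only [Finset.mem_filter, Finset.mem_erase]; tauto
      have hc : (S.erase x).filter (fun y => sd y = !s) = B := by
        rw [← hBS]; ext y; simp only [Finset.mem_filter, Finset.mem_erase]
        constructor
        · rintro ⟨⟨_, h⟩, h'⟩; exact ⟨h, h'⟩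
        · rintro ⟨h, h'⟩
          refine ⟨⟨?_, h⟩, h'⟩
          rintro rfl
          rw [hAs _ hxA] at h'
          cases s <;> simp at h'
      have hd := (hsplit (S.erase x)).2 ⟨by rw [hb, Finset.card_erase_of_mem hxA, hA], by rw [hc, hB]⟩
      exact ⟨⟨hd.1, hd.2, hx1⟩, Finset.erase_subset _ _⟩
  rw [key, Finset.card_image_of_injOn]
  · have h1 : (((A.filter (fun x => W sd F (S.erase x) = 1)).card : ℕ) : ZMod 2) = 0 := by
      rw [Finset.card_filter]
      push_cast
      refine Eq.trans ?_ (sum_erase_zero hA G)
      apply Finset.sum_congr rfl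
      intro x hx
      rw [z2_ite]
      exact hW x hx
    rw [ZMod.natCast_eq_zero_iff] at h1
    exact even_iff_two_dvd.2 h1
  · intro x hx y hy hxy
    have hxS : x ∈ S := hAsub (Finset.mem_filter.1 (Finset.mem_coe.1 hx)).1
    simp only at hxy
    by_contra hne
    have : x ∈ S.erase y := Finset.mem_erase.2 ⟨hne, hxS⟩
    rw [← hxy] at this
    exact absurd rfl (Finset.mem_erase.1 this).1

theorem hyp_even (sd : X → Bool) (F : X → X → ZMod 2) :
    ∀ S : Finset X, S.card = 5 → (∀ v ∈ S, (S.filter (fun w => sd v = sd w)).card ≤ 3) →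
      Even ((Hyp sd F).filter (fun e => e ⊆ S)).card := by
  intro S hS h3
  have hc := card_split sd S
  rw [hS] at hc
  have hf : (S.filter (fun x => sd x = false)).card ≤ 3 := by
    rcases Finset.eq_empty_or_nonempty (S.filter (fun x => sd x = false)) with h | ⟨v, hv⟩
    · rw [h]; simp
    · have h4 := h3 v (Finset.mem_filter.1 hv).1
      rw [filter_side, (Finset.mem_filter.1 hv).2] at h4
      exact h4
  have ht : (S.filter (fun x => sd x = true)).card ≤ 3 := by
    rcases Finset.eq_empty_or_nonempty (S.filter (fun x => sd x = true)) with h | ⟨v, hv⟩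
    · rw [h]; simp
    · have h4 := h3 v (Finset.mem_filter.1 hv).1
      rw [filter_side, (Finset.mem_filter.1 hv).2] at h4
      exact h4
  have hcase : ((S.filter (fun x => sd x = false)).card = 3 ∧ (S.filter (fun x => sd x = true)).card = 2) ∨
    ((S.filter (fun x => sd x = true)).card = 3 ∧ (S.filter (fun x => sd x = false)).card = 2) := by omega
  rcases hcase with ⟨h5, h6⟩ | ⟨h5, h6⟩
  · refine even_aux sd F S _ _ h5 h6 false rfl rfl
      (fun a => ∑ b ∈ S.filter (fun x => sd x = true), F a b) ?_
    intro x hx
    have hxf := (Finset.mem_filter.1 hx).2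
    unfold W
    have e1 : (S.erase x).filter (fun y => sd y = false) = (S.filter (fun y => sd y = false)).erase x := by
      ext y; simp only [Finset.mem_filter, Finset.mem_erase]; tauto
    have e2 : (S.erase x).filter (fun y => sd y = true) = S.filter (fun y => sd y = true) := by
      ext y; simp only [Finset.mem_filter, Finset.mem_erase]
      constructor
      · rintro ⟨⟨_, h⟩, h'⟩; exact ⟨h, h'⟩
      · rintro ⟨h, h'⟩
        refine ⟨⟨?_, h⟩, h'⟩
        rintro rfl
        rw [hxf] at h'
        simp at h'
    rw [e1, e2]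
  · refine even_aux sd F S _ _ h5 h6 true rfl rfl
      (fun b => ∑ a ∈ S.filter (fun x => sd x = false), F a b) ?_
    intro x hx
    have hxf := (Finset.mem_filter.1 hx).2
    unfold W
    have e1 : (S.erase x).filter (fun y => sd y = true) = (S.filter (fun y => sd y = true)).erase x := by
      ext y; simp only [Finset.mem_filter, Finset.mem_erase]; tauto
    have e2 : (S.erase x).filter (fun y => sd y = false) = S.filter (fun y => sd y = false) := by
      ext y; simp only [Finset.mem_filter, Finset.mem_erase]
      constructor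
      · rintro ⟨⟨_, h⟩, h'⟩; exact ⟨h, h'⟩
      · rintro ⟨h, h'⟩
        refine ⟨⟨?_, h⟩, h'⟩
        rintro rfl
        rw [hxf] at h'
        simp at h'
    rw [e1, e2, Finset.sum_comm]

/-- a hyperedge in terms of its four elements -/
theorem mem_four (sd : X → Bool) (F : X → X → ZMod 2) (hF : ∀ x y, F x y = F y x) (s : Bool)
    {a a' b b' : X} (haa : a ≠ a') (hbb : b ≠ b') (ha : sd a = s) (ha' : sd a' = s)
    (hb : sd b = !s) (hb' : sd b' = !s) :
    ({a, a', b, b'} : Finset X) ∈ Hyp sd F ↔ F a b + F a b' + F a' b + F a' b' = 1 := by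
  have key : ∀ {c c' d d' : X}, c ≠ c' → d ≠ d' → sd c = false → sd c' = false →
      sd d = true → sd d' = true →
      (({c, c', d, d'} : Finset X) ∈ Hyp sd F ↔ F c d + F c d' + F c' d + F c' d' = 1) := by
    intro c c' d d' hcc hdd hc hc' hd hd'
    have e1 : ({c, c', d, d'} : Finset X).filter (fun x => sd x = false) = {c, c'} := by
      ext x; simp only [Finset.mem_filter, Finset.mem_insert, Finset.mem_singleton]
      constructor
      · rintro ⟨rfl | rfl | rfl | rfl, h⟩
        · simp
        · simp
        · rw [hd] at h; simp at h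
        · rw [hd'] at h; simp at h
      · rintro (rfl | rfl)
        · simp [hc]
        · simp [hc']
    have e2 : ({c, c', d, d'} : Finset X).filter (fun x => sd x = true) = {d, d'} := by
      ext x; simp only [Finset.mem_filter, Finset.mem_insert, Finset.mem_singleton]
      constructor
      · rintro ⟨rfl | rfl | rfl | rfl, h⟩
        · rw [hc] at h; simp at h
        · rw [hc'] at h; simp at h
        · simp
        · simp
      · rintro (rfl | rfl)
        · simp [hd]
        · simp [hd']
    rw [mem_Hyp]
    unfold W
    rw [e1, e2, Finset.card_pair hcc, Finset.card_pair hdd, Finset.sum_pair hcc,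
      Finset.sum_pair hdd, Finset.sum_pair hdd]
    simp only [true_and]
    constructor <;> intro h <;> rw [← h] <;> ring
  cases s
  · exact key haa hbb ha ha' (by simpa using hb) (by simpa using hb')
  · have h := key hbb haa (by simpa using hb) (by simpa using hb') ha ha'
    have e : ({a, a', b, b'} : Finset X) = {b, b', a, a'} := by
      ext x; simp only [Finset.mem_insert, Finset.mem_singleton]; tauto
    rw [e, h, hF b a, hF b a', hF b' a, hF b' a']
    have : F a b + F a' b + F a b' + F a' b' = F a b + F a b' + F a' b + F a' b' := by ring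
    rw [this]

/-- a set with two elements on both sides -/
theorem exists_four (sd : X → Bool) (s : Bool) {e : Finset X} (h : e.card = 4)
    (h2 : ∀ v ∈ e, (e.filter (fun w => sd v = sd w)).card = 2) :
    ∃ a a' b b' : X, a ≠ a' ∧ b ≠ b' ∧ sd a = s ∧ sd a' = s ∧ sd b = (!s) ∧ sd b' = (!s) ∧
      e = {a, a', b, b'} := by
  have hs : (e.filter (fun x => sd x = s)).card = 2 ∧ (e.filter (fun x => sd x = !s)).card = 2 := by
    have hc : (e.filter (fun x => sd x = s)).card + (e.filter (fun x => sd x = !s)).card = e.card := by
      cases s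
      · exact card_split sd e
      · rw [add_comm]; exact card_split sd e
    rw [h] at hc
    have hne : e.Nonempty := by rw [← Finset.card_pos]; omega
    obtain ⟨v, hv⟩ := hne
    have h3 := h2 v hv
    rw [filter_side] at h3
    by_cases hvs : sd v = s
    · rw [hvs] at h3; omega
    · have hvs' : sd v = !s := by
        cases s <;> cases h' : sd v <;> simp_all
      rw [hvs'] at h3; omega
  obtain ⟨a, a', haa, h3⟩ := Finset.card_eq_two.1 hs.1
  obtain ⟨b, b', hbb, h4⟩ := Finset.card_eq_two.1 hs.2
  have hunion : (e.filter (fun x => sd x = s)) ∪ (e.filter (fun x => sd x = !s)) = e := by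
    cases s
    · exact union_split sd e
    · rw [Finset.union_comm]; exact union_split sd e
  have ha : ∀ x ∈ ({a, a'} : Finset X), sd x = s := by
    intro x hx; rw [← h3] at hx; exact (Finset.mem_filter.1 hx).2
  have hb : ∀ x ∈ ({b, b'} : Finset X), sd x = !s := by
    intro x hx; rw [← h4] at hx; exact (Finset.mem_filter.1 hx).2
  refine ⟨a, a', b, b', haa, hbb, ha a (by simp), ha a' (by simp), hb b (by simp), hb b' (by simp), ?_⟩
  rw [← hunion, h3, h4]
  ext x; simp only [Finset.mem_insert, Finset.mem_singleton, Finset.mem_union]; tauto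

/-- images of hyperedges under maps which preserve or swap the sides and the function up to switching -/
theorem map_mem {Y : Type} [Fintype Y] [DecidableEq Y] (sd : X → Bool) (F : X → X → ZMod 2)
    (hF : ∀ x y, F x y = F y x) (sd' : Y → Bool) (F' : Y → Y → ZMod 2)
    (hF' : ∀ x y, F' x y = F' y x) (δ : Bool) (G : X → ZMod 2) (σ : X ↪ Y)
    (hσ : ∀ x, sd' (σ x) = xor (sd x) δ)
    (hFσ : ∀ x y, sd x ≠ sd y → F' (σ x) (σ y) = F x y + G x + G y) (e : Finset X) :
    e ∈ Hyp sd F ↔ e.map σ ∈ Hyp sd' F' := by
  have main : ∀ {a a' b b' : X}, a ≠ a' → b ≠ b' → sd a = false → sd a' = false → sd b = true →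
      sd b' = true → (({a, a', b, b'} : Finset X) ∈ Hyp sd F ↔
        ({a, a', b, b'} : Finset X).map σ ∈ Hyp sd' F') := by
    intro a a' b b' haa hbb ha ha' hb hb'
    have e1 : ({a, a', b, b'} : Finset X).map σ = {σ a, σ a', σ b, σ b'} := by
      simp [Finset.map_insert]
    rw [e1, mem_four sd F hF false haa hbb ha ha' hb hb',
      mem_four sd' F' hF' (xor false δ) (σ.injective.ne haa) (σ.injective.ne hbb)
        (by rw [hσ, ha]) (by rw [hσ, ha']) (by rw [hσ, hb]; cases δ <;> rfl)
        (by rw [hσ, hb']; cases δ <;> rfl)]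
    rw [hFσ a b (by rw [ha, hb]; simp), hFσ a b' (by rw [ha, hb']; simp),
      hFσ a' b (by rw [ha', hb]; simp), hFσ a' b' (by rw [ha', hb']; simp)]
    have h1 := two_mul_z2 (G a)
    have h2 := two_mul_z2 (G a')
    have h3 := two_mul_z2 (G b)
    have h4 := two_mul_z2 (G b')
    have : F a b + G a + G b + (F a b' + G a + G b') + (F a' b + G a' + G b) +
        (F a' b' + G a' + G b') = F a b + F a b' + F a' b + F a' b' := by
      linear_combination h1 + h2 + h3 + h4
    rw [this]
  constructor
  · intro he
    obtain ⟨a, a', b, b', haa, hbb, ha, ha', hb, hb', rfl⟩ :=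
      exists_four sd false (hyp_card sd F e he).1 (hyp_card sd F e he).2
    exact (main haa hbb ha ha' hb hb').1 he
  · intro he
    have h1 := hyp_card sd' F' _ he
    have h2 : e.card = 4 := by rw [← h1.1, Finset.card_map]
    have h3 : ∀ v ∈ e, (e.filter (fun w => sd v = sd w)).card = 2 := by
      intro v hv
      have h4 := h1.2 (σ v) (Finset.mem_map_of_mem σ hv)
      rw [Finset.filter_map, Finset.card_map] at h4
      rw [← h4]
      congr 1
      ext w
      simp only [Finset.mem_filter, Function.comp, hσ]
      constructor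
      · rintro ⟨h5, h6⟩; exact ⟨h5, by rw [h6]⟩
      · rintro ⟨h5, h6⟩
        refine ⟨h5, ?_⟩
        cases h7 : sd v <;> cases h8 : sd w <;> cases δ <;> simp_all
    obtain ⟨a, a', b, b', haa, hbb, ha, ha', hb, hb', rfl⟩ := exists_four sd false h2 h3
    exact (main haa hbb ha ha' hb hb').2 he

end Pool.Agent.Y416.ThreeGraph
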