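import Pool.Agent.Y416.ThreeGraph

set_option autoImplicit false
set_option linter.unusedSectionVars false

/-!
# Every three-graph is given by a function; extension of partial automorphisms
-/

namespace Pool.Agent.Y416.ThreeGraph

open Finset

variable {X : Type} [Fintype X] [DecidableEq X]

theorem bool_ne {x y : Bool} (h : ¬ x = y) : x = !y := by
  revert x y; decide

theorem four_eq {a a' b b' x x' y y' : X} (h1 : ∀ t, (t = x ∨ t = x') ↔ (t = a ∨ t = a'))
    (h2 : ∀ t, (t = y ∨ t = y') ↔ (t = b ∨ t = b')) :
    ({x, x', y, y'} : Finset X) = {a, a', b, b'} := by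
  ext t
  simp only [Finset.mem_insert, Finset.mem_singleton]
  rw [← @or_assoc (t = x), ← @or_assoc (t = a), h1, h2]

theorem pair_swap_iff (x y : X) : ∀ t, (t = x ∨ t = y) ↔ (t = y ∨ t = x) := fun _ => or_comm

theorem four_sub {a a' b b' b'' : X} {x y : X} (hx : x = b ∨ x = b' ∨ x = b'')
    (hy : y = b ∨ y = b' ∨ y = b'') : ({a, a', x, y} : Finset X) ⊆ {a, a', b, b', b''} := by
  intro t
  simp only [Finset.mem_insert, Finset.mem_singleton]
  rintro (h | h | h | h)
  · exact Or.inl h
  · exact Or.inr (Or.inl h)
  · rw [h]; exact Or.inr (Or.inr hx)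
  · rw [h]; exact Or.inr (Or.inr hy)

theorem five_card {a a' b b' b'' : X} (haa : a ≠ a') (n1 : a ≠ b) (n2 : a ≠ b') (n3 : a ≠ b'')
    (n4 : a' ≠ b) (n5 : a' ≠ b') (n6 : a' ≠ b'') (h1 : b ≠ b') (h2 : b' ≠ b'') (h3 : b ≠ b'') :
    ({a, a', b, b', b''} : Finset X).card = 5 := by
  rw [Finset.card_insert_of_notMem, Finset.card_insert_of_notMem, Finset.card_insert_of_notMem,
      Finset.card_insert_of_notMem, Finset.card_singleton]
  · simp [h2]
  · simp [h1, h3]
  · simp [n4, n5, n6]
  · simp [haa, n1, n2, n3]

theorem three_card {b b' b'' : X} (h1 : b ≠ b') (h2 : b' ≠ b'') (h3 : b ≠ b'') :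
    ({b, b', b''} : Finset X).card = 3 := by
  rw [Finset.card_insert_of_notMem, Finset.card_insert_of_notMem, Finset.card_singleton]
  · simp [h2]
  · simp [h1, h3]

/-- indicator of hyperedges -/
def hh (HA : Finset (Finset X)) (a a' b b' : X) : ZMod 2 :=
  if a ≠ a' ∧ b ≠ b' ∧ ({a, a', b, b'} : Finset X) ∈ HA then 1 else 0

theorem hh_swap (HA : Finset (Finset X)) (a a' b b' : X) : hh HA a a' b b' = hh HA b b' a a' := by
  unfold hh
  have e : ({a, a', b, b'} : Finset X) = {b, b', a, a'} := by
    ext x; simp only [Finset.mem_insert, Finset.mem_singleton]; tauto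
  rw [e]
  congr 1
  exact propext ⟨fun h => ⟨h.2.1, h.1, h.2.2⟩, fun h => ⟨h.2.1, h.1, h.2.2⟩⟩

theorem hh_comm1 (HA : Finset (Finset X)) (a a' b b' : X) : hh HA a a' b b' = hh HA a' a b b' := by
  unfold hh
  have e : ({a, a', b, b'} : Finset X) = {a', a, b, b'} := by
    ext x; simp only [Finset.mem_insert, Finset.mem_singleton]; tauto
  rw [e]
  congr 1
  exact propext ⟨fun h => ⟨h.1.symm, h.2.1, h.2.2⟩, fun h => ⟨h.1.symm, h.2.1, h.2.2⟩⟩

theorem hh_comm2 (HA : Finset (Finset X)) (a a' b b' : X) : hh HA a a' b b' = hh HA a a' b' b := by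
  rw [hh_swap, hh_comm1, hh_swap]

theorem hh_self (HA : Finset (Finset X)) (a a' b : X) : hh HA a a' b b = 0 := by
  unfold hh; simp

/-- the cocycle condition -/
theorem hh_cocycle (sd : X → Bool) (HA : Finset (Finset X))
    (h4 : ∀ e ∈ HA, e.card = 4 ∧ ∀ v ∈ e, (e.filter (fun w => sd v = sd w)).card = 2)
    (h5 : ∀ S : Finset X, S.card = 5 → (∀ v ∈ S, (S.filter (fun w => sd v = sd w)).card ≤ 3) →
      Even (HA.filter (fun e => e ⊆ S)).card) (s : Bool)
    {a a' b b' b'' : X} (ha : sd a = s) (ha' : sd a' = s) (hb : sd b = !s) (hb' : sd b' = !s)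
    (hb'' : sd b'' = !s) :
    hh HA a a' b b' + hh HA a a' b' b'' + hh HA a a' b b'' = 0 := by
  by_cases haa : a = a'
  · unfold hh; simp [haa]
  by_cases h1 : b = b'
  · rw [h1, hh_self]
    have := two_mul_z2 (hh HA a a' b' b'')
    rw [zero_add]; exact this
  by_cases h2 : b' = b''
  · rw [h2, hh_self]
    have := two_mul_z2 (hh HA a a' b b'')
    rw [add_zero]; exact this
  by_cases h3 : b = b''
  · rw [h3, hh_self, hh_comm2 HA a a' b'' b']
    have := two_mul_z2 (hh HA a a' b' b'')
    rw [add_zero]; exact this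
  have hab : ∀ {x y : X}, sd x = s → sd y = (!s) → x ≠ y := by
    rintro x y hx hy rfl
    rw [hx] at hy
    cases s <;> simp at hy
  have n1 := hab ha hb
  have n2 := hab ha hb'
  have n3 := hab ha hb''
  have n4 := hab ha' hb
  have n5 := hab ha' hb'
  have n6 := hab ha' hb''
  have c1 : ({a, a', b, b', b''} : Finset X).card = 5 := five_card haa n1 n2 n3 n4 n5 n6 h1 h2 h3
  have fs : ({a, a', b, b', b''} : Finset X).filter (fun x => sd x = s) = {a, a'} := by
    ext x; simp only [Finset.mem_filter, Finset.mem_insert, Finset.mem_singleton]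
    constructor
    · rintro ⟨rfl | rfl | rfl | rfl | rfl, h⟩
      · simp
      · simp
      · exact absurd rfl (hab h hb)
      · exact absurd rfl (hab h hb')
      · exact absurd rfl (hab h hb'')
    · rintro (rfl | rfl)
      · simp [ha]
      · simp [ha']
  have fns : ({a, a', b, b', b''} : Finset X).filter (fun x => sd x = !s) = {b, b', b''} := by
    ext x; simp only [Finset.mem_filter, Finset.mem_insert, Finset.mem_singleton]
    constructor
    · rintro ⟨rfl | rfl | rfl | rfl | rfl, h⟩
      · exact absurd rfl (hab ha h)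
      · exact absurd rfl (hab ha' h)
      · simp
      · simp
      · simp
    · rintro (rfl | rfl | rfl)
      · simp [hb]
      · simp [hb']
      · simp [hb'']
  have c2 : ({a, a'} : Finset X).card = 2 := Finset.card_pair haa
  have c3 : ({b, b', b''} : Finset X).card = 3 := three_card h1 h2 h3
  have hev := h5 {a, a', b, b', b''} c1 (by
    intro v _
    rw [filter_side]
    by_cases hv : sd v = s
    · rw [hv, fs, c2]; norm_num
    · have hv' : sd v = !s := bool_ne hv
      rw [hv', fns, c3])
  have key : HA.filter (fun e => e ⊆ ({a, a', b, b', b''} : Finset X)) =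
      ({({a, a', b, b'} : Finset X), {a, a', b', b''}, {a, a', b, b''}} : Finset (Finset X)).filter
        (fun e => e ∈ HA) := by
    ext e
    simp only [Finset.mem_filter, Finset.mem_insert, Finset.mem_singleton]
    constructor
    · rintro ⟨he, hsub⟩
      refine ⟨?_, he⟩
      obtain ⟨x, x', y, y', hxx, hyy, hx, hx', hy, hy', rfl⟩ := exists_four sd s (h4 e he).1 (h4 e he).2
      have hx1 : x ∈ ({a, a'} : Finset X) := by
        rw [← fs]; exact Finset.mem_filter.2 ⟨hsub (by simp), hx⟩
      have hx2 : x' ∈ ({a, a'} : Finset X) := by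
        rw [← fs]; exact Finset.mem_filter.2 ⟨hsub (by simp), hx'⟩
      have hy1 : y ∈ ({b, b', b''} : Finset X) := by
        rw [← fns]; exact Finset.mem_filter.2 ⟨hsub (by simp), hy⟩
      have hy2 : y' ∈ ({b, b', b''} : Finset X) := by
        rw [← fns]; exact Finset.mem_filter.2 ⟨hsub (by simp), hy'⟩
      simp only [Finset.mem_insert, Finset.mem_singleton] at hx1 hx2 hy1 hy2
      have e1 : ∀ t : X, (t = x ∨ t = x') ↔ (t = a ∨ t = a') := by
        intro t
        rcases hx1 with rfl | rfl
        · rcases hx2 with rfl | rfl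
          · exact absurd rfl hxx
          · exact Iff.rfl
        · rcases hx2 with rfl | rfl
          · exact or_comm
          · exact absurd rfl hxx
      rcases hy1 with rfl | rfl | rfl
      · rcases hy2 with rfl | rfl | rfl
        · exact absurd rfl hyy
        · exact Or.inl (four_eq e1 (fun _ => Iff.rfl))
        · exact Or.inr (Or.inr (four_eq e1 (fun _ => Iff.rfl)))
      · rcases hy2 with rfl | rfl | rfl
        · exact Or.inl (four_eq e1 (fun _ => or_comm))
        · exact absurd rfl hyy
        · exact Or.inr (Or.inl (four_eq e1 (fun _ => Iff.rfl)))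
      · rcases hy2 with rfl | rfl | rfl
        · exact Or.inr (Or.inr (four_eq e1 (fun _ => or_comm)))
        · exact Or.inr (Or.inl (four_eq e1 (fun _ => or_comm)))
        · exact absurd rfl hyy
    · rintro ⟨h | h | h, he⟩
      · refine ⟨he, ?_⟩
        rw [h]
        exact four_sub (Or.inl rfl) (Or.inr (Or.inl rfl))
      · refine ⟨he, ?_⟩
        rw [h]
        exact four_sub (Or.inr (Or.inl rfl)) (Or.inr (Or.inr rfl))
      · refine ⟨he, ?_⟩
        rw [h]
        exact four_sub (Or.inl rfl) (Or.inr (Or.inr rfl))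
  rw [key] at hev
  have hd1 : ({a, a', b, b'} : Finset X) ≠ {a, a', b', b''} := by
    intro h
    have : b ∈ ({a, a', b', b''} : Finset X) := by rw [← h]; simp
    simp only [Finset.mem_insert, Finset.mem_singleton] at this
    rcases this with h | h | h | h
    · exact n1 h.symm
    · exact n4 h.symm
    · exact h1 h
    · exact h3 h
  have hd2 : ({a, a', b, b'} : Finset X) ≠ {a, a', b, b''} := by
    intro h
    have : b' ∈ ({a, a', b, b''} : Finset X) := by rw [← h]; simp
    simp only [Finset.mem_insert, Finset.mem_singleton] at this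
    rcases this with h | h | h | h
    · exact n2 h.symm
    · exact n5 h.symm
    · exact h1 h.symm
    · exact h2 h
  have hd3 : ({a, a', b', b''} : Finset X) ≠ {a, a', b, b''} := by
    intro h
    have : b' ∈ ({a, a', b, b''} : Finset X) := by rw [← h]; simp
    simp only [Finset.mem_insert, Finset.mem_singleton] at this
    rcases this with h | h | h | h
    · exact n2 h.symm
    · exact n5 h.symm
    · exact h1 h.symm
    · exact h2 h
  have hcast : (((({({a, a', b, b'} : Finset X), {a, a', b', b''}, {a, a', b, b''}} :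
      Finset (Finset X)).filter (fun e => e ∈ HA)).card : ℕ) : ZMod 2) =
      hh HA a a' b b' + hh HA a a' b' b'' + hh HA a a' b b'' := by
    rw [Finset.card_filter, Finset.sum_insert, Finset.sum_insert, Finset.sum_singleton]
    · unfold hh
      simp only [ne_eq, haa, not_false_eq_true, h1, h2, h3, true_and]
      push_cast
      ring
    · simp only [Finset.mem_singleton]; exact hd3
    · simp only [Finset.mem_insert, Finset.mem_singleton]
      rintro (h | h)
      · exact hd1 h
      · exact hd2 h
  rw [← hcast, ZMod.natCast_eq_zero_iff]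
  exact even_iff_two_dvd.1 hev

/-- every three-graph is given by a symmetric function -/
theorem exists_fun (sd : X → Bool) (HA : Finset (Finset X))
    (h4 : ∀ e ∈ HA, e.card = 4 ∧ ∀ v ∈ e, (e.filter (fun w => sd v = sd w)).card = 2)
    (h5 : ∀ S : Finset X, S.card = 5 → (∀ v ∈ S, (S.filter (fun w => sd v = sd w)).card ≤ 3) →
      Even (HA.filter (fun e => e ⊆ S)).card) :
    ∃ F : X → X → ZMod 2, (∀ x y, F x y = F y x) ∧ HA = Hyp sd F := by
  by_cases hex : (∃ a0, sd a0 = false) ∧ (∃ b0, sd b0 = true)
  · obtain ⟨⟨a0, ha0⟩, ⟨b0, hb0⟩⟩ := hex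
    let f : X → X → ZMod 2 := fun a b => if sd a = false ∧ sd b = true then hh HA a a0 b b0 else 0
    let F : X → X → ZMod 2 := fun a b => f a b + f b a
    have hF : ∀ x y, F x y = F y x := fun x y => add_comm _ _
    have hFv : ∀ a b, sd a = false → sd b = true → F a b = hh HA a a0 b b0 := by
      intro a b ha hb
      simp [F, f, ha, hb]
    have c1 : ∀ {a a' b b' b'' : X}, sd a = false → sd a' = false → sd b = true → sd b' = true →
        sd b'' = true → hh HA a a' b b' + hh HA a a' b' b'' + hh HA a a' b b'' = 0 :=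
      fun ha ha' hb hb' hb'' => hh_cocycle sd HA h4 h5 false ha ha' (by simpa using hb)
        (by simpa using hb') (by simpa using hb'')
    have c2 : ∀ {a a' a'' b b' : X}, sd a = false → sd a' = false → sd a'' = false → sd b = true →
        sd b' = true → hh HA a a' b b' + hh HA a' a'' b b' + hh HA a a'' b b' = 0 := by
      intro a a' a'' b b' ha ha' ha'' hb hb'
      have := hh_cocycle sd HA h4 h5 true hb hb' (b := a) (b' := a') (b'' := a'')
        (by simpa using ha) (by simpa using ha') (by simpa using ha'')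
      rw [hh_swap HA a a', hh_swap HA a' a'', hh_swap HA a a'']
      exact this
    have main : ∀ {a a' b b' : X}, sd a = false → sd a' = false → sd b = true → sd b' = true →
        F a b + F a b' + F a' b + F a' b' = hh HA a a' b b' := by
      intro a a' b b' ha ha' hb hb'
      rw [hFv a b ha hb, hFv a b' ha hb', hFv a' b ha' hb, hFv a' b' ha' hb']
      have e1 := c1 ha ha0 hb hb0 hb'
      have e2 := c1 ha' ha0 hb hb0 hb'
      have e3 := c2 ha ha0 ha' hb hb'
      rw [hh_comm2 HA a a0 b0 b'] at e1
      rw [hh_comm2 HA a' a0 b0 b'] at e2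
      rw [hh_comm1 HA a0 a' b b'] at e3
      have t1 := two_mul_z2 (hh HA a a0 b b')
      have t2 := two_mul_z2 (hh HA a' a0 b b')
      have t3 := two_mul_z2 (hh HA a a' b b')
      linear_combination e1 + e2 + e3 - t1 - t2 - t3
    refine ⟨F, hF, ?_⟩
    ext e
    constructor
    · intro he
      obtain ⟨a, a', b, b', haa, hbb, ha, ha', hb, hb', rfl⟩ :=
        exists_four sd false (h4 e he).1 (h4 e he).2
      rw [mem_four sd F hF false haa hbb ha ha' hb hb', main ha ha' (by simpa using hb) (by simpa using hb')]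
      unfold hh
      rw [if_pos ⟨haa, hbb, he⟩]
    · intro he
      have he' := hyp_card sd F e he
      obtain ⟨a, a', b, b', haa, hbb, ha, ha', hb, hb', rfl⟩ :=
        exists_four sd false he'.1 he'.2
      rw [mem_four sd F hF false haa hbb ha ha' hb hb', main ha ha' (by simpa using hb) (by simpa using hb')] at he
      unfold hh at he
      by_contra hcon
      rw [if_neg (fun h => hcon h.2.2)] at he
      exact absurd he (by decide)
  · refine ⟨fun _ _ => 0, fun _ _ => rfl, ?_⟩
    ext e
    constructor
    · intro he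
      exfalso
      obtain ⟨a, a', b, b', haa, hbb, ha, ha', hb, hb', rfl⟩ :=
        exists_four sd false (h4 e he).1 (h4 e he).2
      exact hex ⟨⟨a, ha⟩, ⟨b, by simpa using hb⟩⟩
    · intro he
      exfalso
      have he' := hyp_card sd _ e he
      obtain ⟨a, a', b, b', haa, hbb, ha, ha', hb, hb', rfl⟩ :=
        exists_four sd false he'.1 he'.2
      exact hex ⟨⟨a, ha⟩, ⟨b, by simpa using hb⟩⟩

/-- a map which preserves the hyperedges inside `S` preserves the function up to switching -/
theorem exists_switch (sd : X → Bool) (F : X → X → ZMod 2) (hF : ∀ x y, F x y = F y x)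
    (S : Finset X) (p : X → X) (hp : Set.InjOn p (S : Set X)) (δ : Bool)
    (hδ : ∀ x ∈ S, sd (p x) = xor (sd x) δ)
    (hH : ∀ e ⊆ S, e ∈ Hyp sd F ↔ e.image p ∈ Hyp sd F) :
    ∃ G : X → ZMod 2, ∀ x ∈ S, ∀ y ∈ S, sd x ≠ sd y → F (p x) (p y) = F x y + G x + G y := by
  let D : X → X → ZMod 2 := fun x y => F (p x) (p y) + F x y
  have hD : ∀ x y, D x y = D y x := by
    intro x y; simp only [D]; rw [hF (p x), hF x]
  -- the square relation
  have sq : ∀ x ∈ S, ∀ x' ∈ S, ∀ y ∈ S, ∀ y' ∈ S, sd x = false → sd x' = false → sd y = true →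
      sd y' = true → D x y + D x y' + D x' y + D x' y' = 0 := by
    intro x hx x' hx' y hy y' hy' sx sx' sy sy'
    by_cases hxx : x = x'
    · subst hxx
      have t1 := two_mul_z2 (D x y)
      have t2 := two_mul_z2 (D x y')
      linear_combination t1 + t2
    by_cases hyy : y = y'
    · subst hyy
      have t1 := two_mul_z2 (D x y)
      have t2 := two_mul_z2 (D x' y)
      linear_combination t1 + t2
    have hsub : ({x, x', y, y'} : Finset X) ⊆ S := by
      intro t ht
      simp only [Finset.mem_insert, Finset.mem_singleton] at ht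
      rcases ht with rfl | rfl | rfl | rfl <;> assumption
    have h1 := hH _ hsub
    have e1 : ({x, x', y, y'} : Finset X).image p = {p x, p x', p y, p y'} := by
      simp [Finset.image_insert]
    have nx : p x ≠ p x' := fun h => hxx (hp hx hx' h)
    have ny : p y ≠ p y' := fun h => hyy (hp hy hy' h)
    rw [e1, mem_four sd F hF false hxx hyy sx sx' (by simpa using sy) (by simpa using sy'),
      mem_four sd F hF (xor false δ) nx ny
        (by rw [hδ x hx, sx]) (by rw [hδ x' hx', sx']) (by rw [hδ y hy, sy]; cases δ <;> rfl)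
        (by rw [hδ y' hy', sy']; cases δ <;> rfl)] at h1
    have h2 : ∀ u v : ZMod 2, (u = 1 ↔ v = 1) → v + u = 0 := by decide
    have h3 := h2 _ _ h1
    simp only [D]
    rw [← h3]
    ring
  have fin : ∀ x y : X, ∀ g : ZMod 2, D x y = g → F (p x) (p y) = F x y + g := by
    intro x y g h
    have t := two_mul_z2 (F x y)
    simp only [D] at h
    rw [← h]
    linear_combination - t
  by_cases hex : (∃ a0 ∈ S, sd a0 = false) ∧ (∃ b0 ∈ S, sd b0 = true)
  · obtain ⟨⟨a0, ha0, sa0⟩, ⟨b0, hb0, sb0⟩⟩ := hex
    refine ⟨fun x => if sd x = false then D x b0 else D a0 x + D a0 b0, ?_⟩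
    have main : ∀ x ∈ S, ∀ y ∈ S, sd x = false → sd y = true →
        D x y = D x b0 + (D a0 y + D a0 b0) := by
      intro x hx y hy sx sy
      have h := sq x hx a0 ha0 y hy b0 hb0 sx sa0 sy sb0
      have t1 := two_mul_z2 (D x b0)
      have t2 := two_mul_z2 (D a0 y)
      have t3 := two_mul_z2 (D a0 b0)
      linear_combination h - t1 - t2 - t3
    intro x hx y hy hxy
    rw [add_assoc]
    show F (p x) (p y) = F x y + ((if sd x = false then D x b0 else D a0 x + D a0 b0) +
      (if sd y = false then D y b0 else D a0 y + D a0 b0))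
    rcases Bool.eq_false_or_eq_true (sd x) with sx | sx
    · have sy : sd y = false := by
        rcases Bool.eq_false_or_eq_true (sd y) with h | h
        · exact absurd (sx.trans h.symm) hxy
        · exact h
      rw [if_neg (by rw [sx]; decide), if_pos sy]
      refine fin x y _ ?_
      rw [hD x y, main y hy x hx sy sx]
      ring
    · have sy : sd y = true := by
        rcases Bool.eq_false_or_eq_true (sd y) with h | h
        · exact h
        · exact absurd (sx.trans h.symm) hxy
      rw [if_pos sx, if_neg (by rw [sy]; decide)]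
      exact fin x y _ (main x hx y hy sx sy)
  · refine ⟨fun _ => 0, ?_⟩
    intro x hx y hy hxy
    exfalso
    apply hex
    cases sx : sd x
    · have sy : sd y = true := by
        cases h : sd y
        · exact absurd (sx.trans h.symm) hxy
        · rfl
      exact ⟨⟨x, hx, sx⟩, ⟨y, hy, sy⟩⟩
    · have sy : sd y = false := by
        cases h : sd y
        · rfl
        · exact absurd (sx.trans h.symm) hxy
      exact ⟨⟨y, hy, sy⟩, ⟨x, hx, sx⟩⟩

end Pool.Agent.Y416.ThreeGraph
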